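import Mathlib

/-!
# Polynomial families of linear maps: injectivity is a generic property
-/

set_option autoImplicit false

open Module Polynomial

namespace Pool.Agent.W2helper36.WM

variable {K V W W' : Type*} [Field K] [AddCommGroup V] [Module K V] [AddCommGroup W] [Module K W]
  [AddCommGroup W'] [Module K W']

/-- The linear map `F u` depends on `u` as a polynomial of degree at most `d`. -/
def PolyFam (d : ℕ) (F : K → (V →ₗ[K] W)) : Prop :=
  ∀ (φ : Dual K W) (x : V), ∃ p : K[X], p.natDegree ≤ d ∧ ∀ u, φ (F u x) = p.eval u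

namespace PolyFam

lemma const (T : V →ₗ[K] W) : PolyFam 0 (fun _ : K => T) := fun φ x =>
  ⟨C (φ (T x)), by simp, fun u => by simp⟩

lemma mono {d d' : ℕ} (h : d ≤ d') {F : K → (V →ₗ[K] W)} (hF : PolyFam d F) : PolyFam d' F :=
  fun φ x => by
    obtain ⟨p, hp, hp'⟩ := hF φ x
    exact ⟨p, hp.trans h, hp'⟩

lemma add {d : ℕ} {F G : K → (V →ₗ[K] W)} (hF : PolyFam d F) (hG : PolyFam d G) :
    PolyFam d (fun u => F u + G u) := fun φ x => by
  obtain ⟨p, hp, hp'⟩ := hF φ x
  obtain ⟨r, hr, hr'⟩ := hG φ x
  exact ⟨p + r, (natDegree_add_le _ _).trans (max_le hp hr), fun u => by simp [hp', hr']⟩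

lemma pow_smul {d : ℕ} {F : K → (V →ₗ[K] W)} (hF : PolyFam d F) (k : ℕ) :
    PolyFam (d + k) (fun u => u ^ k • F u) := fun φ x => by
  obtain ⟨p, hp, hp'⟩ := hF φ x
  refine ⟨p * X ^ k, (natDegree_mul_le).trans (add_le_add hp (natDegree_X_pow_le k)), fun u => ?_⟩
  rw [LinearMap.smul_apply, map_smul, hp', eval_mul, eval_pow, eval_X, smul_eq_mul, mul_comm]

lemma sum {d : ℕ} {ι : Type*} (s : Finset ι) {F : ι → K → (V →ₗ[K] W)}
    (hF : ∀ i ∈ s, PolyFam d (F i)) : PolyFam d (fun u => ∑ i ∈ s, F i u) := by
  classical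
  induction s using Finset.induction_on with
  | empty =>
    simp only [Finset.sum_empty]
    exact (const 0).mono (Nat.zero_le d)
  | insert i s hi ih =>
    simp only [Finset.sum_insert hi]
    exact (hF i (Finset.mem_insert_self i s)).add
      (ih fun j hj => hF j (Finset.mem_insert_of_mem hj))

lemma comp [FiniteDimensional K W] {d e : ℕ} {F : K → (V →ₗ[K] W)} {G : K → (W →ₗ[K] W')}
    (hG : PolyFam e G) (hF : PolyFam d F) : PolyFam (e + d) (fun u => G u ∘ₗ F u) := fun φ x => by
  classical
  let b := finBasis K W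
  choose p hp hp' using fun i => hF (b.coord i) x
  choose r hr hr' using fun i => hG φ (b i)
  refine ⟨∑ i, r i * p i, natDegree_sum_le_of_forall_le _ _ fun i _ =>
    natDegree_mul_le.trans (add_le_add (hr i) (hp i)), fun u => ?_⟩
  rw [LinearMap.comp_apply]
  conv_lhs => rw [← b.sum_repr (F u x)]
  rw [map_sum, map_sum, eval_finsetSum]
  refine Finset.sum_congr rfl fun i _ => ?_
  rw [map_smul, map_smul, eval_mul, ← hr', ← hp', smul_eq_mul, mul_comm]
  rfl

lemma pow [FiniteDimensional K V] {d : ℕ} {F : K → Module.End K V} (hF : PolyFam d F) (k : ℕ) :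
    PolyFam (k * d) (fun u => F u ^ k) := by
  induction k with
  | zero =>
    simp only [pow_zero, Nat.zero_mul]
    exact const 1
  | succ k ih =>
    have h := comp ih hF
    simp only [pow_succ]
    rw [Nat.succ_mul]
    exact h

lemma comp_const {d : ℕ} {F : K → (W →ₗ[K] W')} (hF : PolyFam d F) (T : V →ₗ[K] W) :
    PolyFam d (fun u => F u ∘ₗ T) := fun φ x => hF φ (T x)

/-- Injectivity for one value of `u` implies injectivity for almost all. -/
theorem finite_bad [FiniteDimensional K V] {d : ℕ} {F : K → (V →ₗ[K] W)} (hF : PolyFam d F)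
    (u₀ : K) (h₀ : Function.Injective (F u₀)) :
    ∃ T : Finset K, T.card ≤ finrank K V * d ∧ ∀ u ∉ T, Function.Injective (F u) := by
  classical
  obtain ⟨g, hg⟩ := LinearMap.exists_leftInverse_of_injective (F u₀) (LinearMap.ker_eq_bot.2 h₀)
  let b := finBasis K V
  let φ : Fin (finrank K V) → Dual K W := fun i => b.coord i ∘ₗ g
  choose p hp hp' using fun i j => hF (φ i) (b j)
  let A : Matrix (Fin (finrank K V)) (Fin (finrank K V)) K[X] := Matrix.of p
  have hev : ∀ u, A.det.eval u = (Matrix.of fun i j => φ i (F u (b j))).det := by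
    intro u
    have h1 := RingHom.map_det (evalRingHom u) A
    rw [coe_evalRingHom] at h1
    rw [h1]
    congr 1
    ext i j
    simp [A, hp']
  have h1 : A.det ≠ 0 := by
    intro h0
    have h2 := hev u₀
    rw [h0, eval_zero] at h2
    have h3 : (Matrix.of fun i j => φ i (F u₀ (b j))) = 1 := by
      ext i j
      rw [Matrix.of_apply]
      have h4 : g (F u₀ (b j)) = b j := by
        have := congrArg (fun f => f (b j)) hg
        simpa using this
      change b.coord i (g (F u₀ (b j))) = _
      rw [h4, Basis.coord_apply, Basis.repr_self, Finsupp.single_apply, Matrix.one_apply]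
      by_cases hij : i = j
      · rw [if_pos hij, if_pos hij.symm]
      · rw [if_neg hij, if_neg (Ne.symm hij)]
    rw [h3, Matrix.det_one] at h2
    exact zero_ne_one h2
  have hdeg : A.det.natDegree ≤ finrank K V * d := by
    rw [Matrix.det_apply]
    refine natDegree_sum_le_of_forall_le _ _ fun σ _ => ?_
    refine (natDegree_smul_le _ _).trans ((natDegree_prod_le _ _).trans ?_)
    refine (Finset.sum_le_sum fun i _ => hp (σ i) i).trans ?_
    simp
  refine ⟨A.det.roots.toFinset, ?_, ?_⟩
  · exact (Multiset.toFinset_card_le _).trans ((card_roots' _).trans hdeg)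
  · intro u hu
    have h2 : A.det.eval u ≠ 0 := by
      intro h
      apply hu
      rw [Multiset.mem_toFinset, mem_roots h1]
      exact h
    rw [hev] at h2
    rw [injective_iff_map_eq_zero]
    intro x hx
    have h3 : (Matrix.of fun i j => φ i (F u (b j))).mulVec (fun j => b.repr x j) = 0 := by
      ext i
      rw [Matrix.mulVec, dotProduct, Pi.zero_apply]
      have h4 : φ i (F u x) = ∑ j, φ i (F u (b j)) * b.repr x j := by
        conv_lhs => rw [← b.sum_repr x]
        rw [map_sum, map_sum]
        refine Finset.sum_congr rfl fun j _ => ?_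
        rw [map_smul, map_smul, smul_eq_mul, mul_comm]
      rw [hx, map_zero] at h4
      exact h4.symm
    have h5 := Matrix.eq_zero_of_mulVec_eq_zero h2 h3
    apply b.repr.injective
    ext j
    rw [map_zero, Finsupp.zero_apply]
    exact congrFun h5 j

end PolyFam

end Pool.Agent.W2helper36.WM
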