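import Pool.Agent.Y163.MW.Lin
import Pool.Agent.Y153.MW.A
import Pool.Agent.Y664.MW.B2
import Pool.Agent.Y141.MW.L
import Pool.Agent.Y68.MW.D
import Pool.Agent.Y614.MW.F
import Pool.Agent.W2helper36.WM.Poly

/-!
# Two commuting nilpotent operators: the relative monodromy filtration
-/

set_option autoImplicit false

open Module

namespace Pool.Agent.W2helper36.WM

open Pool.Agent.Y143 Pool.Agent.Y163.MW

universe u v

variable {K : Type u} [Field K] {V : Type v} [AddCommGroup V] [Module K V]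

/-- The raising operator of a centred nilpotent operator. -/
theorem exists_sl2 [CharZero K] [Module.Finite K V] {gr : ℤ → Submodule K V} {N : Module.End K V}
    (hgr : DirectSum.IsInternal gr) (hN : ∀ r, ∀ x ∈ gr r, N x ∈ gr (r - 2))
    (hC : Centred gr N) :
    ∃ e h : Module.End K V, (∀ r, ∀ x ∈ gr r, h x = (r : K) • x) ∧ e * N - N * e = h ∧
      h * N - N * h = (-2 : K) • N ∧ h * e - e * h = (2 : K) • e := by
  obtain ⟨S⟩ := Pool.Agent.Y153.MW.stA K V gr N hgr hN
  obtain ⟨e, h, H⟩ := Pool.Agent.Y664.MW.t_B2 K V gr N S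
  have hs := (Pool.Agent.Y614.MW.stF K V gr N hgr S).1 hC
  refine ⟨e, h, ?_, H.eN, H.hN, H.he⟩
  intro r x hx
  rw [gr_eq_span hgr.submodule_iSupIndep S.b (fun p => S.top p.1 - 2 * ((p.2 : ℕ) : ℤ))
    (fun p => S.mem p.1 p.2) r] at hx
  induction hx using Submodule.span_induction with
  | mem x hx =>
    obtain ⟨p, hp, rfl⟩ := hx
    rw [H.wt, ← show S.top p.1 - 2 * ((p.2 : ℕ) : ℤ) = r from hp, hs]
  | zero => simp
  | add x y _ _ hx hy => rw [map_add, hx, hy, smul_add]
  | smul c x _ hx => rw [map_smul, hx, smul_comm]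

section Uniq

variable {ι : Type} [Fintype ι] {b : Basis ι K V} {a : ι → ℤ} {N e h : Module.End K V}

lemma h_low {N h : Module.End K V} (H : h * N - N * h = (-2 : K) • N) {c : K} {x : V}
    (hx : h x = c • x) : h (N x) = (c - 2) • N x := by
  have h1 := congrArg (fun T : Module.End K V => T x) H
  simp only [LinearMap.sub_apply, Module.End.mul_apply, LinearMap.smul_apply, hx, map_smul] at h1
  rw [sub_eq_iff_eq_add] at h1
  rw [h1, sub_smul, neg_smul]
  abel

lemma h_up {C h : Module.End K V} (H : h * C - C * h = (2 : K) • C) {c : K} {x : V}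
    (hx : h x = c • x) : h (C x) = (c + 2) • C x := by
  have h1 := congrArg (fun T : Module.End K V => T x) H
  simp only [LinearMap.sub_apply, Module.End.mul_apply, LinearMap.smul_apply, hx, map_smul] at h1
  rw [sub_eq_iff_eq_add] at h1
  rw [h1, add_smul]
  abel

lemma h_low_pow {N h : Module.End K V} (H : h * N - N * h = (-2 : K) • N) {c : K} {x : V}
    (hx : h x = c • x) (k : ℕ) : h ((N ^ k) x) = (c - 2 * k) • (N ^ k) x := by
  induction k with
  | zero => simpa using hx
  | succ k ih =>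
    rw [pow_succ', Module.End.mul_apply, h_low H ih]
    congr 1
    push_cast
    ring

/-- An operator of degree two which commutes with the lowering operator is zero. -/
theorem comm_eq_zero [CharZero K] (H : IsSl2 N b a e h) {C : Module.End K V}
    (hCN : C * N = N * C) (hC : h * C - C * h = (2 : K) • C) : C = 0 := by
  classical
  have hL := Pool.Agent.Y141.MW.stL K V N ι b a e h H
  have hpow : ∀ (k : ℕ) (x : V), C ((N ^ k) x) = (N ^ k) (C x) := by
    intro k x
    have h1 : C * N ^ k = N ^ k * C := ((show Commute C N from hCN).pow_right k).eq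
    exact congrArg (fun T : Module.End K V => T x) h1
  obtain ⟨B, hB⟩ : ∃ B : ℕ, ∀ m : ℕ, B < m → ∀ x, h x = (m : K) • x → x = 0 := by
    refine ⟨∑ i, (a i).natAbs, fun m hm x hx => ?_⟩
    apply b.repr.injective
    ext i
    rw [map_zero, Finsupp.zero_apply]
    have h1 := Pool.Agent.Y68.MW.repr_h H x i
    rw [hx, map_smul, Finsupp.smul_apply, smul_eq_mul] at h1
    have h2 : ((m : K) - (a i : K)) * b.repr x i = 0 := by
      rw [sub_mul, h1, sub_self]
    rcases mul_eq_zero.1 h2 with h3 | h3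
    · exfalso
      have h4 : ((m : ℤ) : K) = ((a i : ℤ) : K) := by
        rw [Int.cast_natCast]
        exact sub_eq_zero.1 h3
      have h5 : (m : ℤ) = a i := by exact_mod_cast h4
      have h6 : (a i).natAbs ≤ ∑ i, (a i).natAbs :=
        Finset.single_le_sum (f := fun i => (a i).natAbs) (fun _ _ => Nat.zero_le _)
          (Finset.mem_univ i)
      omega
    · exact h3
  have key : ∀ k m : ℕ, B < m + k → ∀ x, h x = (m : K) • x → C x = 0 := by
    intro k
    induction k with
    | zero =>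
      intro m hm x hx
      rw [hB m (by omega) x hx, map_zero]
    | succ k ih =>
      intro m hm x hx
      have h1 : h ((N ^ (m + 1)) x) = (-((m + 2 : ℕ) : K)) • (N ^ (m + 1)) x := by
        rw [h_low_pow H.hN hx]
        congr 1
        push_cast
        ring
      obtain ⟨y, hy, hy'⟩ := (hL (m + 2)).2 _ h1
      have hCy : C y = 0 := ih (m + 2) (by omega) y hy
      have hp : (N ^ (m + 1)) (x - N y) = 0 := by
        rw [map_sub, ← hy', pow_succ N (m + 1), Module.End.mul_apply, sub_self]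
      have hNy : h (N y) = (m : K) • N y := by
        rw [h_low H.hN hy]
        congr 1
        push_cast
        ring
      have hpe : h (x - N y) = (m : K) • (x - N y) := by
        rw [map_sub, hx, hNy, smul_sub]
      have hCp : C (x - N y) = 0 := by
        have h2 : h (C (x - N y)) = ((m + 2 : ℕ) : K) • C (x - N y) := by
          rw [h_up hC hpe]
          congr 1
          push_cast
          ring
        refine (hL (m + 2)).1 _ h2 ?_
        rw [pow_succ', Module.End.mul_apply, ← hpow, hp, map_zero, map_zero]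
      have h3 : C (N y) = 0 := by
        have := hpow 1 y
        rw [pow_one] at this
        rw [this, hCy, map_zero]
      have h4 : C x = C (x - N y) + C (N y) := by rw [map_sub]; abel
      rw [h4, hCp, h3, add_zero]
  have hpos : ∀ (m : ℕ) x, h x = (m : K) • x → C x = 0 := fun m x hx =>
    key (B + 1) m (by omega) x hx
  refine b.ext fun i => ?_
  rw [LinearMap.zero_apply]
  rcases (a i).eq_nat_or_neg with ⟨m, hm | hm⟩
  · refine hpos m _ ?_
    rw [H.wt, hm, Int.cast_natCast]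
  · obtain ⟨y, hy, hy'⟩ := (hL m).2 (b i) (by rw [H.wt, hm]; push_cast; rfl)
    rw [← hy', hpow, hpos m y hy, map_zero]

end Uniq

/-- The sum of two commuting `sl(2)` actions. -/
theorem sum_sl2 [CharZero K] {ι : Type} [Fintype ι] {b : Basis ι K V} {a s : ι → ℤ}
    {Z N e₁ h₁ e₂ h₂ : Module.End K V} (H₁ : IsSl2 Z b a e₁ h₁) (H₂ : IsSl2 N b s e₂ h₂)
    (hNZ : N * Z = Z * N) (h1N : h₁ * N = N * h₁) (h2Z : h₂ * Z = Z * h₂) :
    IsSl2 (Z + N) b (fun i => a i + s i) (e₁ + e₂) (h₁ + h₂) := by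
  have h12 : h₁ * h₂ = h₂ * h₁ := by
    refine b.ext fun i => ?_
    rw [Module.End.mul_apply, Module.End.mul_apply, H₂.wt, map_smul, H₁.wt, map_smul, H₂.wt,
      smul_comm]
  -- `e₁` commutes with `N`
  have e1N : e₁ * N - N * e₁ = 0 := by
    refine comm_eq_zero H₁ ?_ ?_
    · have e1 := H₁.eN
      have : (e₁ * N - N * e₁) * Z - Z * (e₁ * N - N * e₁) =
          (e₁ * Z - Z * e₁) * N - N * (e₁ * Z - Z * e₁) + e₁ * (N * Z - Z * N) -
            (N * Z - Z * N) * e₁ := by noncomm_ring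
      rw [e1, hNZ, sub_self, mul_zero, zero_mul, h1N, sub_self] at this
      rw [← sub_eq_zero, this]
      simp
    · have e1 := H₁.he
      have : h₁ * (e₁ * N - N * e₁) - (e₁ * N - N * e₁) * h₁ =
          (h₁ * e₁ - e₁ * h₁) * N - N * (h₁ * e₁ - e₁ * h₁) + e₁ * (h₁ * N - N * h₁) -
            (h₁ * N - N * h₁) * e₁ := by noncomm_ring
      rw [e1, h1N] at this
      rw [this, smul_sub, smul_mul_assoc, mul_smul_comm]
      simp
  have h2e : h₂ * e₁ - e₁ * h₂ = 0 := by
    refine comm_eq_zero H₁ ?_ ?_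
    · have e1 := H₁.eN
      have : (h₂ * e₁ - e₁ * h₂) * Z - Z * (h₂ * e₁ - e₁ * h₂) =
          h₂ * (e₁ * Z - Z * e₁) - (e₁ * Z - Z * e₁) * h₂ + (h₂ * Z - Z * h₂) * e₁ -
            e₁ * (h₂ * Z - Z * h₂) := by noncomm_ring
      rw [e1, h2Z, ← h12, sub_self, sub_self, mul_zero, zero_mul] at this
      rw [← sub_eq_zero, this]
      simp
    · have e1 := H₁.he
      have : h₁ * (h₂ * e₁ - e₁ * h₂) - (h₂ * e₁ - e₁ * h₂) * h₁ =
          h₂ * (h₁ * e₁ - e₁ * h₁) - (h₁ * e₁ - e₁ * h₁) * h₂ + (h₁ * h₂ - h₂ * h₁) * e₁ +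
            e₁ * (h₂ * h₁ - h₁ * h₂) := by noncomm_ring
      rw [e1, h12] at this
      rw [this, smul_sub, smul_mul_assoc, mul_smul_comm]
      simp
  have e2Z : e₂ * Z - Z * e₂ = 0 := by
    refine comm_eq_zero H₂ ?_ ?_
    · have e1 := H₂.eN
      have : (e₂ * Z - Z * e₂) * N - N * (e₂ * Z - Z * e₂) =
          (e₂ * N - N * e₂) * Z - Z * (e₂ * N - N * e₂) + e₂ * (Z * N - N * Z) -
            (Z * N - N * Z) * e₂ := by noncomm_ring
      rw [e1, hNZ, sub_self, mul_zero, zero_mul, h2Z, sub_self] at this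
      rw [← sub_eq_zero, this]
      simp
    · have e1 := H₂.he
      have : h₂ * (e₂ * Z - Z * e₂) - (e₂ * Z - Z * e₂) * h₂ =
          (h₂ * e₂ - e₂ * h₂) * Z - Z * (h₂ * e₂ - e₂ * h₂) + e₂ * (h₂ * Z - Z * h₂) -
            (h₂ * Z - Z * h₂) * e₂ := by noncomm_ring
      rw [e1, h2Z] at this
      rw [this, smul_sub, smul_mul_assoc, mul_smul_comm]
      simp
  have h1e : h₁ * e₂ - e₂ * h₁ = 0 := by
    refine comm_eq_zero H₂ ?_ ?_
    · have e1 := H₂.eN
      have : (h₁ * e₂ - e₂ * h₁) * N - N * (h₁ * e₂ - e₂ * h₁) =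
          h₁ * (e₂ * N - N * e₂) - (e₂ * N - N * e₂) * h₁ + (h₁ * N - N * h₁) * e₂ -
            e₂ * (h₁ * N - N * h₁) := by noncomm_ring
      rw [e1, h1N, h12, sub_self, sub_self, mul_zero, zero_mul] at this
      rw [← sub_eq_zero, this]
      simp
    · have e1 := H₂.he
      have : h₂ * (h₁ * e₂ - e₂ * h₁) - (h₁ * e₂ - e₂ * h₁) * h₂ =
          h₁ * (h₂ * e₂ - e₂ * h₂) - (h₂ * e₂ - e₂ * h₂) * h₁ + (h₂ * h₁ - h₁ * h₂) * e₂ +
            e₂ * (h₁ * h₂ - h₂ * h₁) := by noncomm_ring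
      rw [e1, h12] at this
      rw [this, smul_sub, smul_mul_assoc, mul_smul_comm]
      simp
  refine ⟨fun i => ?_, ?_, ?_, ?_⟩
  · rw [LinearMap.add_apply, H₁.wt, H₂.wt, ← add_smul]
    push_cast
    rfl
  · have : (e₁ + e₂) * (Z + N) - (Z + N) * (e₁ + e₂) = (e₁ * Z - Z * e₁) + (e₂ * N - N * e₂) +
        (e₁ * N - N * e₁) + (e₂ * Z - Z * e₂) := by noncomm_ring
    rw [this, e1N, e2Z, H₁.eN, H₂.eN, add_zero, add_zero]
  · have : (h₁ + h₂) * (Z + N) - (Z + N) * (h₁ + h₂) = (h₁ * Z - Z * h₁) + (h₂ * N - N * h₂) +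
        (h₁ * N - N * h₁) + (h₂ * Z - Z * h₂) := by noncomm_ring
    rw [this, h1N, h2Z, H₁.hN, H₂.hN, sub_self, sub_self, add_zero, add_zero, smul_add]
  · have : (h₁ + h₂) * (e₁ + e₂) - (e₁ + e₂) * (h₁ + h₂) = (h₁ * e₁ - e₁ * h₁) +
        (h₂ * e₂ - e₂ * h₂) + (h₁ * e₂ - e₂ * h₁) + (h₂ * e₁ - e₁ * h₂) := by noncomm_ring
    rw [this, h1e, h2e, H₁.he, H₂.he, add_zero, add_zero, smul_add]

end Pool.Agent.W2helper36.WM
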