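import Pool.Agent.Y143.Defs

/-!
# One-parameter families near a semistable fibre: definitions

`K` is a finite extension of `ℚ_p` with residue field of `q` elements (or a henselian discretely
valued field of characteristic `0` with finite residue field), `C` is a smooth curve over `K`,
`0 ∈ C(K)`, `t` is a local parameter at `0` and `f : X → C` is a projective flat morphism of relative
dimension `n` with `X` regular, smooth outside `0`, whose fibre `Y = X_0` is a reduced divisor with
strict normal crossings with components `Y_j`, geometrically irreducible over `K`.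
`Y^(a+1)` is the disjoint union of the intersections of `a + 1` different components of `Y`; it is
smooth and projective of dimension `n - a` over `K`. `K` is large enough: its inertia group acts
unipotently on the cohomology groups which occur here. `Ω` is an algebraic closure of `ℚ_ℓ` with
`ℓ ≠ p`.

* `H a = ⨁_m H^m(Y^(a+1)_{\bar K}, Ω)`, `gr a m = H^m`, with the action `act a frob` of a fixed
  Frobenius element of the Weil group of `K` and the logarithm `mon a` of the monodromy of the
  inertia group of `K`.
* `limit.V i = H^i` is the limit cohomology, i.e. the cohomology of the geometric generic fibre of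
  `X` over the henselisation of `C` at `0`. The choice of `t` gives an action of the Galois group of
  `K`, i.e. operators `act i frob` and `monL i`. `limit.N i` is the logarithm of the local monodromy
  of the family around `0`. The filtration `limit.W i` and the relations `limit.sp i` are given by
  the weight spectral sequence of `X` over the strict henselisation of `C` at `0` (with residue field
  `\bar K`), whose `E_1` terms are the sums of the `H^(w + r - a)(Y^(a+1))(-(a - r) / 2)`.
-/

set_option autoImplicit false

open Module

namespace Pool.Agent.W2helper36.WM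

open Pool.Agent.Y143

section

variable {Ω : Type} [Field Ω] {H : Type} [AddCommGroup H] [Module Ω H]
  {H' : Type} [AddCommGroup H'] [Module Ω H']

/-- The action of the Weil group of `K` on `H = ⨁ gr m`: the Frobenius element `F` and the logarithm
`N` of the monodromy have degree `0` and `N F = q F N`. -/
structure IsWeilAction (gr : ℤ → Submodule Ω H) (q : ℕ) (F N : Module.End Ω H) : Prop where
  frob_gr : ∀ m x, x ∈ gr m → F x ∈ gr m
  mon_gr : ∀ m x, x ∈ gr m → N x ∈ gr m
  mon_frob : ∀ x, N (F x) = (q : Ω) • F (N x)

/-- `ρ` is a map of degree `k`, compatible with the logarithms of the monodromy, which satisfies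
`F' ρ = c ρ F` for the Frobenius elements. -/
structure IsWeilMap (gr : ℤ → Submodule Ω H) (gr' : ℤ → Submodule Ω H') (k : ℤ) (c : Ω)
    (F N : Module.End Ω H) (F' N' : Module.End Ω H') (ρ : H →ₗ[Ω] H') : Prop where
  map_gr : ∀ m x, x ∈ gr m → ρ x ∈ gr' (m + k)
  map_frob : ∀ x, F' (ρ x) = c • ρ (F x)
  map_mon : ∀ x, N' (ρ x) = ρ (N x)

/-- The actions on a finite-dimensional space of a Frobenius element `F`, of the logarithm `N` of the
monodromy of `K` and of the logarithm `Z` of the local monodromy of a family. -/
structure IsPencil (q : ℕ) (F N Z : Module.End Ω H) : Prop where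
  finite : Module.Finite Ω H
  mon_comm : ∀ x, N (Z x) = Z (N x)
  mon_frob : ∀ x, N (F x) = (q : Ω) • F (N x)
  loc_frob : ∀ x, Z (F x) = (q : Ω) • F (Z x)

/-- The relations `S w` between `H` and `H'` are compatible with the operators `F`, `N` on `H` and
`F' w`, `N'` on `H'`. -/
structure IsEquivariant (S : ℤ → Submodule Ω (H × H')) (F N : Module.End Ω H)
    (F' : ℤ → Module.End Ω H') (N' : Module.End Ω H') : Prop where
  sp_frob : ∀ w v x, (v, x) ∈ S w → (F v, F' w x) ∈ S w
  sp_mon : ∀ w v x, (v, x) ∈ S w → (N v, N' x) ∈ S w

/-- The exponential of a nilpotent operator on a finite-dimensional space. -/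
noncomputable def expo (A : Module.End Ω H) : Module.End Ω H :=
  ∑ k ∈ Finset.range (finrank Ω H + 1), ((k.factorial : Ω)⁻¹) • A ^ k

end

/-- The cohomology of the strata of `Y = X_0` over `K`, with the restriction maps `res`, the Gysin
maps `gys`, the action of a Frobenius element and the logarithms `mon` of the monodromy of `K`. -/
structure Strata (Ω : Type) [Field Ω] (Γ : Type) (n q : ℕ) extends StrataData.{0, 0} Ω Γ where
  mon : ∀ a, Module.End Ω (H a)
  /-- `H^m(Y^(a+1)) = 0` unless `0 ≤ m ≤ 2 (n - a)`, and it is finite-dimensional -/
  graded : ∀ a : ℕ, IsGraded (gr a) (n - a)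
  weil : ∀ a : ℕ, IsWeilAction (gr a) q (act a frob) (mon a)
  /-- the restriction maps have degree `0` -/
  restriction : ∀ a : ℕ, IsWeilMap (gr a) (gr (a + 1)) 0 1 (act a frob) (mon a)
    (act (a + 1) frob) (mon (a + 1)) (res a)
  /-- the Gysin maps have degree `2` and are defined on a Tate twist -/
  gysin : ∀ a : ℕ, IsWeilMap (gr (a + 1)) (gr a) 2 q (act (a + 1) frob) (mon (a + 1))
    (act a frob) (mon a) (gys a)
  res_res : ∀ a : ℕ, IsZeroComp (res a) (res (a + 1))
  gys_gys : ∀ a : ℕ, IsZeroComp (gys (a + 1)) (gys a)
  res_gys : ∀ a : ℕ, Anticommute (gys a) (res a) (res (a + 1)) (gys (a + 1))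
  /-- the Frobenius element acts on `Ω(-1)` by `q` -/
  cyc_frob : ((cyc frob : Ωˣ) : Ω) = q

namespace Strata

variable {Ω : Type} [Field Ω] {Γ : Type} {n q : ℕ} (X : Strata Ω Γ n q)

/-- The action of the Frobenius element on `H^m(Y^(a+1))`. -/
def frobOn (a : ℕ) (m : ℤ) : Module.End Ω (X.gr a m) :=
  (X.act a X.frob).restrict fun x hx => (X.weil a).frob_gr m x hx

/-- The logarithm of the monodromy on `H^m(Y^(a+1))`. -/
def monOn (a : ℕ) (m : ℤ) : Module.End Ω (X.gr a m) :=
  (X.mon a).restrict fun x hx => (X.weil a).mon_gr m x hx

/-- The logarithm of the monodromy of `K` on families. -/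
def monC : X.C →ₗ[Ω] X.C where
  toFun x a := X.mon a (x a)
  map_add' x y := by ext a; simp
  map_smul' c x := by ext a; simp

/-- The weight-monodromy conjecture for the strata of `Y` (over `K`): `H^m(Y^(a+1))` is mw pure of
weight `m` for all `a` and `m`. -/
def WeightMonodromy [CharZero Ω] : Prop :=
  ∀ (a : ℕ) (m : ℤ), IsMWPure q m (X.frobOn a m) (X.monOn a m)

/-- The cohomology of the strata is unramified and `H^m(Y^(a+1))` is pure of weight `m`: for instance
the strata have good reduction over `K`, or their cohomology is generated by algebraic cycles. -/
def IsUnramified [CharZero Ω] : Prop :=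
  (∀ a x, X.mon a x = 0) ∧ ∀ (a : ℕ) (m : ℤ) (α : Ω) x, x ∈ X.gr a m → x ≠ 0 →
    X.act a X.frob x = α • x → IsWeilNumber q m α

/-- The action of the Weil group of `K` (Frobenius element and logarithm `monL` of the monodromy) on
the limit cohomology, and the local monodromy of the family around `0`. -/
def HasPencil (G : GenericData X.toStrataData) (monL : ∀ i, Module.End Ω (G.V i)) : Prop :=
  ∀ i, IsPencil q (G.act i X.frob) (monL i) (G.N i)

/-- The weight filtration of the limit cohomology is, up to the shift by `i`, the monodromy
filtration of the logarithm of the local monodromy around `0`. -/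
def HasLocalMonodromy (G : GenericData X.toStrataData) : Prop :=
  ∀ i : ℕ, IsMonodromyFiltration (G.N i) (fun a => G.W i (i + a))

/-- The weight spectral sequence is compatible with the action of the Weil group of `K`. -/
def HasWeilAction (G : GenericData X.toStrataData) (monL : ∀ i, Module.End Ω (G.V i)) : Prop :=
  ∀ i : ℕ, IsEquivariant (G.sp i) (G.act i X.frob) (monL i) (fun w => X.actC (i - w) X.frob) X.monC

end Strata

/-- The family near the semistable fibre `Y = X_0`: the cohomology of the strata of `Y` and the limit
cohomology, with the weight spectral sequence (which degenerates at `E_2`). -/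
structure BoundaryFamily (Ω : Type) [Field Ω] (Γ : Type) (n q : ℕ) extends Strata Ω Γ n q where
  limit : GenericData toStrataData
  /-- the logarithm of the monodromy of `K` on the limit cohomology -/
  monL : ∀ i, Module.End Ω (limit.V i)
  pencil : toStrata.HasPencil limit monL
  weightSequence : limit.HasWeightSequence
  localMonodromy : toStrata.HasLocalMonodromy limit
  weilAction : toStrata.HasWeilAction limit monL

/-- The cohomology `V` of degree `i` of the fibres of a smooth projective family `X → A` over an
annulus or punctured disc `A` over `K` with coordinate `t`, such that the fundamental group of `A`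
acts on it through the Kummer coverings, with unipotent geometric monodromy, i.e. through the
semidirect product of `ℤ_ℓ(1)` and the Galois group of `K`: `frob` is a Frobenius element of the Weil
group of `K`, `mon` is the logarithm of the monodromy of the inertia group of `K` and `loc` is the
logarithm of the generator of the monodromy of the annulus. -/
structure Annulus (Ω : Type) [Field Ω] (q : ℕ) where
  V : Type
  [addCommGroup : AddCommGroup V]
  [module : Module Ω V]
  frob : Module.End Ω V
  mon : Module.End Ω V
  loc : Module.End Ω V
  pencil : IsPencil q frob mon loc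

attribute [instance] Annulus.addCommGroup Annulus.module

namespace Annulus

variable {Ω : Type} [Field Ω] {q : ℕ} (A : Annulus Ω q)

/-- The logarithm of the monodromy of `K'` on the cohomology `V` of the fibre `X_s`, `s ∈ A(K')`,
where `K'` is a finite extension of `K` with ramification index `e`, and `v` is the valuation of
`t(s)`, normalised so that a uniformiser of `K` has valuation `1`. (The Galois group of `K'` acts
on the cohomology of `X_s` by `σ ↦ exp(κ(σ) loc) σ` with the Kummer cocycle `κ` of `t(s)`.) -/
def monAt (e : ℕ) (v : ℚ) : Module.End Ω A.V := (e : Ω) • (A.mon + (v : Ω) • A.loc)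

/-- The Frobenius elements of the Weil group of `K'` on the cohomology of the fibre `X_s`,
`s ∈ A(K')`, if `K'` has residue degree `f` over `K`: such an element is the product of `frob ^ f`
and an element of the inertia group of `K`, so that, by the formula above, it acts by
`exp(l loc + m mon) frob ^ f` for suitable `l`, `m`. -/
noncomputable def frobAt (f : ℕ) (l m : Ω) : Module.End Ω A.V :=
  expo (l • A.loc + m • A.mon) * A.frob ^ f

/-- The cohomology of `X_s` is mw pure of weight `i` for all the points `s` over finite extensions of
`K` for which `t(s)` has valuation `v`. -/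
def PureAt [CharZero Ω] (i : ℤ) (v : ℚ) : Prop :=
  ∀ (e f : ℕ) (l m : Ω), 0 < e → 0 < f → IsMWPure (q ^ f) i (A.frobAt f l m) (A.monAt e v)

end Annulus

/-- The cohomology `H^i` of the fibres `X_s`, `s ≠ 0`, over a small disc around `0`. -/
def BoundaryFamily.near {Ω : Type} [Field Ω] {Γ : Type} {n q : ℕ} (X : BoundaryFamily Ω Γ n q)
    (i : ℕ) : Annulus Ω q where
  V := X.limit.V i
  frob := X.limit.act i X.frob
  mon := X.monL i
  loc := X.limit.N i
  pencil := X.pencil i

end Pool.Agent.W2helper36.WM
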