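import Pool.Agent.W2helper36.WM.Unip

/-!
# One-parameter families near a semistable fibre: the weight spectral sequence
-/

set_option autoImplicit false
set_option linter.unusedSectionVars false

open Module

namespace Pool.Agent.W2helper36.WM

open Pool.Agent.Y143 Pool.Agent.Y163.MW Pool.Agent.N184.HK Pool.Agent.N184.HK.P_FRM

namespace Strata

variable {Ω : Type} [Field Ω] {Γ : Type} {n q : ℕ} (X : Strata Ω Γ n q)

instance finiteH (a : ℕ) : FiniteDimensional Ω (X.H a) := (X.graded a).finite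

lemma cut_of {r : ℤ} {a : ℕ} (h : InColumn r a) (x : X.C) : X.cut r x a = x a := by
  classical
  exact if_pos h

lemma cut_of_not {r : ℤ} {a : ℕ} (h : ¬ InColumn r a) (x : X.C) : X.cut r x a = 0 := by
  classical
  exact if_neg h

lemma resC_zero (x : X.C) : X.resC x 0 = 0 := rfl
lemma resC_succ (x : X.C) (a : ℕ) : X.resC x (a + 1) = X.res a (x a) := rfl
lemma gysC_apply (x : X.C) (a : ℕ) : X.gysC x a = X.gys a (x (a + 1)) := rfl
lemma monC_apply (x : X.C) (a : ℕ) : X.monC x a = X.mon a (x a) := rfl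
lemma diff_apply (r : ℤ) (x : X.C) : X.diff r x = X.cut (r + 1) (X.resC x + X.gysC x) := rfl

lemma mem_E₁ {r w : ℤ} {x : X.C} : x ∈ X.E₁ r w ↔
    ∀ a, x a ∈ X.gr a (w + r - a) ∧ (¬ InColumn r a → x a = 0) := Iff.rfl

lemma eq_zero_of_lt {a : ℕ} (ha : n < a) (x : X.H a) : x = 0 := by
  have h1 : x ∈ ⨆ m, X.gr a m := by
    rw [(X.graded a).isInternal.submodule_iSup_eq_top]; trivial
  have h2 : ⨆ m, X.gr a m = ⊥ := by
    rw [eq_bot_iff]
    refine iSup_le fun m => ?_
    rw [(X.graded a).gr_eq_bot m (by omega)]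
  rw [h2] at h1
  exact h1

instance finiteC : FiniteDimensional Ω X.C := by
  let f : X.C →ₗ[Ω] (∀ a : Fin (n + 1), X.H a) :=
    { toFun := fun x a => x a
      map_add' := fun x y => rfl
      map_smul' := fun c x => rfl }
  apply Module.Finite.of_injective f
  intro x y hxy
  funext a
  by_cases ha : a < n + 1
  · exact congrFun hxy ⟨a, ha⟩
  · rw [X.eq_zero_of_lt (by omega) (x a), X.eq_zero_of_lt (by omega) (y a)]

lemma sum_single (x : X.C) :
    x = ∑ a ∈ Finset.range (n + 1), (LinearMap.single Ω X.H a) (x a) := by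
  classical
  funext b
  rw [Finset.sum_apply]
  by_cases hb : b ∈ Finset.range (n + 1)
  · rw [Finset.sum_eq_single b]
    · simp
    · intro c _ hc
      simp [LinearMap.single_apply, Pi.single_eq_of_ne (Ne.symm hc)]
    · intro h
      exact absurd hb h
  · have hb' : n < b := by
      rw [Finset.mem_range] at hb
      omega
    rw [X.eq_zero_of_lt hb' (x b), X.eq_zero_of_lt hb' (∑ c ∈ Finset.range (n + 1), _)]

/-- The Frobenius element acting on the column `r`. -/
def frobC (r : ℤ) : Module.End Ω X.C := X.actC r X.frob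

lemma frobC_apply (r : ℤ) (x : X.C) (a : ℕ) :
    X.frobC r x a = (q : Ω) ^ (((a : ℤ) - r) / 2) • X.act a X.frob (x a) := by
  change ((X.cyc X.frob ^ (((a : ℤ) - r) / 2) : Ωˣ) : Ω) • X.act a X.frob (x a) = _
  rw [Units.val_zpow_eq_zpow_val, X.cyc_frob]

lemma monC_pow (s : ℕ) (x : X.C) (a : ℕ) : (X.monC ^ s) x a = (X.mon a ^ s) (x a) := by
  induction s with
  | zero => simp
  | succ s ih => rw [pow_succ', Module.End.mul_apply, monC_apply, ih, pow_succ',
      Module.End.mul_apply]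

lemma monC_mem {r w : ℤ} {x : X.C} (hx : x ∈ X.E₁ r w) : X.monC x ∈ X.E₁ r w := fun a =>
  ⟨(X.weil a).mon_gr _ _ (hx a).1, fun h => by rw [monC_apply, (hx a).2 h, map_zero]⟩

lemma monC_pow_mem {r w : ℤ} {x : X.C} (hx : x ∈ X.E₁ r w) (s : ℕ) :
    (X.monC ^ s) x ∈ X.E₁ r w := by
  induction s with
  | zero => simpa using hx
  | succ s ih =>
    rw [pow_succ', Module.End.mul_apply]
    exact X.monC_mem ih

lemma frobC_mem {r w : ℤ} {x : X.C} (hx : x ∈ X.E₁ r w) : X.frobC r x ∈ X.E₁ r w := fun a => by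
  rw [frobC_apply]
  exact ⟨Submodule.smul_mem _ _ ((X.weil a).frob_gr _ _ (hx a).1), fun h => by
    rw [(hx a).2 h, map_zero, smul_zero]⟩

lemma monC_frobC (r : ℤ) (x : X.C) : X.monC (X.frobC r x) = (q : Ω) • X.frobC r (X.monC x) := by
  funext a
  rw [monC_apply, frobC_apply, map_smul, (X.weil a).mon_frob, Pi.smul_apply, frobC_apply,
    monC_apply, smul_comm]

lemma diff_monC (r : ℤ) (x : X.C) : X.diff r (X.monC x) = X.monC (X.diff r x) := by
  funext a
  rw [monC_apply, diff_apply, diff_apply]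
  by_cases h : InColumn (r + 1) a
  · rw [X.cut_of h, X.cut_of h, Pi.add_apply, Pi.add_apply, gysC_apply, gysC_apply, monC_apply,
      map_add, (X.gysin a).map_mon]
    congr 1
    cases a with
    | zero => rw [resC_zero, resC_zero, map_zero]
    | succ b => rw [resC_succ, resC_succ, monC_apply, (X.restriction b).map_mon]
  · rw [X.cut_of_not h, X.cut_of_not h, map_zero]

lemma diff_monC_pow (r : ℤ) (s : ℕ) (x : X.C) :
    X.diff r ((X.monC ^ s) x) = (X.monC ^ s) (X.diff r x) := by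
  induction s with
  | zero => simp
  | succ s ih => rw [pow_succ', Module.End.mul_apply, diff_monC, ih, Module.End.mul_apply]

lemma diff_frobC (hq : 1 < q) [CharZero Ω] (r : ℤ) (x : X.C) :
    X.diff r (X.frobC r x) = X.frobC (r + 1) (X.diff r x) := by
  have hqΩ : (q : Ω) ≠ 0 := by exact_mod_cast (by omega : q ≠ 0)
  funext a
  rw [frobC_apply, diff_apply, diff_apply]
  by_cases h : InColumn (r + 1) a
  · rw [X.cut_of h, X.cut_of h, Pi.add_apply, Pi.add_apply, gysC_apply, gysC_apply, frobC_apply,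
      map_add, smul_add, (X.gysin a).map_frob, map_smul, smul_smul]
    congr 1
    · cases a with
      | zero => rw [resC_zero, resC_zero, map_zero, smul_zero]
      | succ b =>
        rw [resC_succ, resC_succ, frobC_apply, map_smul, (X.restriction b).map_frob, one_smul]
        congr 2
        push_cast
        omega
    · congr 1
      rw [← zpow_add_one₀ hqΩ]
      congr 1
      push_cast
      omega
  · rw [X.cut_of_not h, X.cut_of_not h, map_zero, smul_zero]

lemma diff_mem {r w : ℤ} {x : X.C} (hx : x ∈ X.E₁ r w) : X.diff r x ∈ X.E₁ (r + 1) w := by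
  intro a
  rw [diff_apply]
  refine ⟨?_, fun h => X.cut_of_not h _⟩
  by_cases h : InColumn (r + 1) a
  · rw [X.cut_of h, Pi.add_apply]
    apply Submodule.add_mem
    · cases a with
      | zero => rw [resC_zero]; exact zero_mem _
      | succ b =>
        rw [resC_succ]
        have := (X.restriction b).map_gr _ _ (hx b).1
        rwa [show w + r - (b : ℤ) + 0 = w + (r + 1) - ((b + 1 : ℕ) : ℤ) by push_cast; ring] at this
    · rw [gysC_apply]
      have := (X.gysin a).map_gr _ _ (hx (a + 1)).1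
      rwa [show w + r - ((a + 1 : ℕ) : ℤ) + 2 = w + (r + 1) - (a : ℤ) by push_cast; ring] at this
  · rw [X.cut_of_not h]
    exact Submodule.zero_mem _

section Weights

variable [CharZero Ω]

lemma weightMonodromy_of_unramified (h : X.IsUnramified) : X.WeightMonodromy := by
  intro a m
  refine ⟨fun b => if 0 ≤ b then ⊤ else ⊥, ⟨?_, ⟨-1, by simp⟩, ⟨0, by simp⟩, ?_, ?_, ?_⟩, ?_, ?_⟩
  · intro b c hbc
    by_cases hb : 0 ≤ b
    · simp [hb, le_trans hb hbc]
    · simp [hb]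
  · intro b x _
    have h0 : X.monOn a m x = 0 := Subtype.ext (h.1 a x)
    rw [h0]
    exact zero_mem _
  · intro b x hx h1
    rcases Nat.eq_zero_or_pos b with rfl | hb
    · simpa using h1
    · rw [if_pos (by omega)]
      trivial
  · intro b y hy
    rcases Nat.eq_zero_or_pos b with rfl | hb
    · exact ⟨y, by simpa using hy, by simp⟩
    · rw [if_neg (by omega), Submodule.mem_bot] at hy
      exact ⟨0, zero_mem _, by rw [hy, map_zero, sub_zero]; exact zero_mem _⟩
  · intro b x hx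
    simp only at hx ⊢
    by_cases hb : 0 ≤ b
    · rw [if_pos hb]; trivial
    · rw [if_neg hb, Submodule.mem_bot] at hx
      rw [hx, map_zero]; exact zero_mem _
  · intro b α x hx hx' h1
    simp only at hx hx' h1
    have hb : 0 ≤ b := by
      by_contra hb
      rw [if_neg hb, Submodule.mem_bot] at hx
      rw [hx] at hx'
      exact hx' (zero_mem _)
    have hb' : ¬ 0 ≤ b - 1 := by
      intro hb'
      rw [if_pos hb'] at hx'
      exact hx' trivial
    rw [if_neg hb', Submodule.mem_bot] at h1 hx'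
    have hb0 : b = 0 := by omega
    rw [hb0, zero_add]
    refine h.2 a m α x x.2 (fun h0 => hx' (Subtype.ext h0)) ?_
    exact congrArg Subtype.val (sub_eq_zero.1 h1)

/-! ### Components and weights -/

lemma comp_WS (hq : 1 < q) {r u : ℤ} {x : X.C} (hx : x ∈ WS q (X.frobC r) u) {a : ℕ}
    (ha : InColumn r a) : x a ∈ WS q (X.act a X.frob) (u - (a - r)) := by
  obtain ⟨k, hk⟩ := ha.2
  have h1 := map_WS hq (Φ := X.frobC r) (Φ' := X.act a X.frob)
    (f := (LinearMap.proj a : X.C →ₗ[Ω] X.H a)) (((a : ℤ) - r) / 2)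
    (fun x => by
      rw [LinearMap.proj_apply, LinearMap.proj_apply]
      exact X.frobC_apply r x a) hx
  rw [show u - 2 * (((a : ℤ) - r) / 2) = u - (a - r) by omega] at h1
  exact h1

lemma single_WS (hq : 1 < q) {r u : ℤ} {a : ℕ} (ha : InColumn r a) {y : X.H a}
    (hy : y ∈ WS q (X.act a X.frob) (u - (a - r))) :
    (LinearMap.single Ω X.H a) y ∈ WS q (X.frobC r) u := by
  have hqΩ : (q : Ω) ≠ 0 := by exact_mod_cast (by omega : q ≠ 0)
  obtain ⟨k, hk⟩ := ha.2
  have h1 := map_WS hq (Φ := X.act a X.frob) (Φ' := X.frobC r)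
    (f := LinearMap.single Ω X.H a) (-(((a : ℤ) - r) / 2)) (fun y => by
      funext b
      rw [Pi.smul_apply, frobC_apply]
      by_cases hb : b = a
      · subst hb
        simp only [LinearMap.single_apply, Pi.single_eq_same]
        rw [smul_smul, ← zpow_add₀ hqΩ, neg_add_cancel, zpow_zero, one_smul]
      · simp only [LinearMap.single_apply, Pi.single_eq_of_ne hb, map_zero, smul_zero]) hy
  rw [show u - (a - r) - 2 * -(((a : ℤ) - r) / 2) = u by omega] at h1
  exact h1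

variable [IsAlgClosed Ω]

/-- Generalized eigenvectors in the graded pieces. -/
lemma on_ES {a : ℕ} {m : ℤ} {S : Set Ω} {x : X.H a} (hx : x ∈ X.gr a m)
    (hS : x ∈ ES (X.act a X.frob) S) : (⟨x, hx⟩ : X.gr a m) ∈ ES (X.frobOn a m) S := by
  let R : Submodule Ω (X.H a × X.gr a m) :=
    LinearMap.ker (LinearMap.fst Ω (X.H a) (X.gr a m) -
      (X.gr a m).subtype ∘ₗ LinearMap.snd Ω (X.H a) (X.gr a m))
  have hmem : ∀ (u : X.H a) (y : X.gr a m), (u, y) ∈ R ↔ u = y := by
    intro u y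
    simp [R, sub_eq_zero]
  obtain ⟨y, hy, hxy⟩ := rel_right (Φ := X.act a X.frob) (Φ' := X.frobOn a m) (R := R)
    (fun u y h => by
      rw [hmem] at h ⊢
      rw [h]
      rfl) ((hmem x ⟨x, hx⟩).2 rfl) hS
  rw [hmem] at hxy
  have : y = ⟨x, hx⟩ := Subtype.ext hxy.symm
  rwa [this] at hy

lemma monOn_pow (a : ℕ) (m : ℤ) (s : ℕ) (x : X.gr a m) :
    (((X.monOn a m ^ s) x : X.gr a m) : X.H a) = (X.mon a ^ s) x := by
  induction s with
  | zero => simp
  | succ s ih =>
    rw [pow_succ', Module.End.mul_apply, pow_succ', Module.End.mul_apply, ← ih]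
    rfl

lemma monOn_frobOn (a : ℕ) (m : ℤ) (x : X.gr a m) :
    X.monOn a m (X.frobOn a m x) = (q : Ω) • X.frobOn a m (X.monOn a m x) :=
  Subtype.ext ((X.weil a).mon_frob x)

lemma gr_centred (hq : 1 < q) (hW : X.WeightMonodromy) (a : ℕ) (m : ℤ) :
    Centred (fun c : ℤ => WS q (X.frobOn a m) (m + c)) (X.monOn a m) :=
  centred_of_pure hq (allWeil_of_pure (hW a m)) (X.monOn_frobOn a m) (hW a m)

lemma gr_inj (hq : 1 < q) (hW : X.WeightMonodromy) {a : ℕ} {m : ℤ} {s : ℕ} {x : X.H a}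
    (hx : x ∈ X.gr a m) (hx' : x ∈ WS q (X.act a X.frob) (m + s)) (h0 : (X.mon a ^ s) x = 0) :
    x = 0 := by
  have h1 := (X.gr_centred hq hW a m s).1 ⟨x, hx⟩ (X.on_ES hx hx')
    (Subtype.ext (by rw [monOn_pow]; exact h0))
  exact congrArg Subtype.val h1

lemma gr_surj (hq : 1 < q) (hW : X.WeightMonodromy) {a : ℕ} {m : ℤ} {s : ℕ} {y : X.H a}
    (hy : y ∈ X.gr a m) (hy' : y ∈ WS q (X.act a X.frob) (m - s)) :
    ∃ x ∈ X.gr a m, x ∈ WS q (X.act a X.frob) (m + s) ∧ (X.mon a ^ s) x = y := by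
  rw [sub_eq_add_neg] at hy'
  obtain ⟨x, hx, hxy⟩ := (X.gr_centred hq hW a m s).2 ⟨y, hy⟩ (X.on_ES hy hy')
  refine ⟨x, x.2, ?_, ?_⟩
  · have h1 := map_WS hq (Φ := X.frobOn a m) (Φ' := X.act a X.frob) (f := (X.gr a m).subtype) 0
      (fun x => by rw [zpow_zero, one_smul]; rfl) hx
    rw [mul_zero, sub_zero] at h1
    exact h1
  · rw [← monOn_pow, hxy]

/-! ### Purity of the `E_1` terms -/

lemma E₁_inj (hq : 1 < q) (hW : X.WeightMonodromy) {r w : ℤ} {s : ℕ} {x : X.C}
    (hx : x ∈ X.E₁ r w) (hx' : x ∈ WS q (X.frobC r) (w + s)) (h0 : (X.monC ^ s) x = 0) :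
    x = 0 := by
  funext a
  rw [Pi.zero_apply]
  by_cases ha : InColumn r a
  · have h1 := X.comp_WS hq hx' ha
    rw [show w + (s : ℤ) - (a - r) = w + r - a + s by ring] at h1
    refine X.gr_inj hq hW (hx a).1 h1 ?_
    rw [← monC_pow, h0, Pi.zero_apply]
  · exact (hx a).2 ha

lemma E₁_surj (hq : 1 < q) (hW : X.WeightMonodromy) {r w : ℤ} {s : ℕ} {y : X.C}
    (hy : y ∈ X.E₁ r w) (hy' : y ∈ WS q (X.frobC r) (w - s)) :
    ∃ x ∈ X.E₁ r w, x ∈ WS q (X.frobC r) (w + s) ∧ (X.monC ^ s) x = y := by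
  classical
  have key : ∀ a : ℕ, ∃ x ∈ X.gr a (w + r - a), (¬ InColumn r a → x = 0) ∧
      (InColumn r a → x ∈ WS q (X.act a X.frob) (w + s - (a - r))) ∧ (X.mon a ^ s) x = y a := by
    intro a
    by_cases ha : InColumn r a
    · have h1 := X.comp_WS hq hy' ha
      rw [show w - (s : ℤ) - (a - r) = w + r - a - s by ring] at h1
      obtain ⟨x, hx, hx', hxy⟩ := X.gr_surj hq hW (hy a).1 h1
      refine ⟨x, hx, fun h => absurd ha h, fun _ => ?_, hxy⟩
      rwa [show w + (s : ℤ) - (a - r) = w + r - a + s by ring]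
    · refine ⟨0, zero_mem _, fun _ => rfl, fun h => absurd h ha, ?_⟩
      rw [map_zero, (hy a).2 ha]
  choose x h1 h2 h3 h4 using key
  refine ⟨x, fun a => ⟨h1 a, h2 a⟩, ?_, ?_⟩
  · rw [X.sum_single x]
    refine Submodule.sum_mem _ fun a _ => ?_
    by_cases ha : InColumn r a
    · exact X.single_WS hq ha (h3 a ha)
    · rw [h2 a ha, map_zero]
      exact zero_mem _
  · funext a
    rw [monC_pow]
    exact h4 a

lemma ES_singleton {V : Type} [AddCommGroup V] [Module Ω V] (Φ : Module.End Ω V) (α : Ω) :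
    ES Φ {α} = Φ.maxGenEigenspace α := by
  apply le_antisymm
  · refine ES_le _ fun e he => ?_
    rw [Set.mem_singleton_iff.1 he]
  · exact le_ES _ (Set.mem_singleton α)

/-- The eigenvalues of the Frobenius element on the `E_1` terms are Weil numbers. -/
lemma E₁_weil (hq : 1 < q) (hW : X.WeightMonodromy) {r w : ℤ} {y : X.C} (hy : y ∈ X.E₁ r w)
    (hy0 : y ≠ 0) {α : Ω} (hα : y ∈ ES (X.frobC r) {α}) : ∃ u : ℤ, IsWeilNumber q u α := by
  have hqΩ : (q : Ω) ≠ 0 := by exact_mod_cast (by omega : q ≠ 0)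
  obtain ⟨b, hb⟩ : ∃ b, y b ≠ 0 := by
    by_contra hcon
    push Not at hcon
    exact hy0 (funext hcon)
  rw [ES_singleton] at hα
  obtain ⟨k, hk⟩ : ∃ k : ℤ, k = ((b : ℤ) - r) / 2 := ⟨_, rfl⟩
  have h6 := map_gen (Φ := X.frobC r) (Φ' := X.act b X.frob)
    (f := (LinearMap.proj b : X.C →ₗ[Ω] X.H b)) (zpow_ne_zero k hqΩ)
    (fun x => by
      rw [LinearMap.proj_apply, LinearMap.proj_apply, hk]
      exact X.frobC_apply _ x b) hα
  have h7 : y b ∈ ES (X.act b X.frob) {α / (q : Ω) ^ k} := le_ES _ (Set.mem_singleton _) h6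
  have h8 := X.on_ES (hy b).1 h7
  rw [ES_singleton] at h8
  obtain ⟨u, hu⟩ := gen_weil (allWeil_of_pure (hW b (w + r - b))) h8
    (fun h => hb (congrArg Subtype.val h))
  have h10 := hu.twist (by omega) k
  rw [mul_div_cancel₀ _ (zpow_ne_zero k hqΩ)] at h10
  exact ⟨_, h10⟩

/-- The differential on the parts of weight `u`. -/
lemma diff_lift (hq : 1 < q) {r w u : ℤ} {y : X.C} (hy : y ∈ X.coboundaries (r + 1) w)
    (hu : y ∈ WS q (X.frobC (r + 1)) u) :
    ∃ x ∈ X.E₁ r w, x ∈ WS q (X.frobC r) u ∧ X.diff r x = y := by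
  obtain ⟨x, hx, hxy⟩ := hy
  rw [show r + 1 - 1 = r by ring] at hx hxy
  let R : Submodule Ω (X.C × X.C) :=
    (X.E₁ r w).map (LinearMap.prod LinearMap.id (X.diff r))
  have hmem : ∀ u v : X.C, (u, v) ∈ R ↔ u ∈ X.E₁ r w ∧ X.diff r u = v := by
    intro u v
    constructor
    · rintro ⟨z, hz, hzu⟩
      have h1 : z = u := congrArg Prod.fst hzu
      have h2 : X.diff r z = v := congrArg Prod.snd hzu
      rw [← h1]
      exact ⟨hz, h2⟩
    · rintro ⟨hz, rfl⟩
      exact ⟨u, hz, rfl⟩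
  obtain ⟨z, hz, hzy⟩ := rel_left (Φ := X.frobC r) (Φ' := X.frobC (r + 1)) (R := R)
    (fun u v h => by
      rw [hmem] at h ⊢
      refine ⟨X.frobC_mem h.1, ?_⟩
      rw [X.diff_frobC hq, h.2]) ((hmem x y).2 ⟨hx, hxy⟩) hu
  rw [hmem] at hzy
  exact ⟨z, hzy.1, hz, hzy.2⟩

lemma diff_WS (hq : 1 < q) {r u : ℤ} {x : X.C} (hx : x ∈ WS q (X.frobC r) u) :
    X.diff r x ∈ WS q (X.frobC (r + 1)) u := by
  have := map_WS hq (Φ := X.frobC r) (Φ' := X.frobC (r + 1)) (f := X.diff r) 0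
    (fun x => by rw [zpow_zero, one_smul]; exact X.diff_frobC hq r x) hx
  rwa [mul_zero, sub_zero] at this

lemma monC_pow_WS (hq : 1 < q) {r u : ℤ} {s : ℕ} {x : X.C} (hx : x ∈ WS q (X.frobC r) u) :
    (X.monC ^ s) x ∈ WS q (X.frobC r) (u - 2 * s) := by
  induction s with
  | zero => simpa using hx
  | succ s ih =>
    have := map_WS hq (Φ := X.frobC r) (Φ' := X.frobC r) (f := X.monC) 1
      (fun x => by rw [zpow_one]; exact X.monC_frobC r x) ih
    rw [pow_succ', Module.End.mul_apply]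
    rwa [show u - 2 * (s : ℤ) - 2 * 1 = u - 2 * ((s + 1 : ℕ) : ℤ) by push_cast; ring] at this

end Weights

end Strata

namespace BoundaryFamily

variable {Ω : Type} [Field Ω] {Γ : Type} {n q : ℕ} (X : BoundaryFamily Ω Γ n q)

/-- The limit cohomology. -/
abbrev V (i : ℕ) : Type := X.limit.V i

instance (i : ℕ) : Module.Finite Ω (X.V i) := (X.pencil i).finite

/-- The Frobenius element acting on the limit cohomology. -/
def frobL (i : ℕ) : Module.End Ω (X.V i) := X.limit.act i X.frob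

/-- The logarithm of the local monodromy of the family around `0`. -/
def loc (i : ℕ) : Module.End Ω (X.V i) := X.limit.N i

lemma sp_mon_pow (i : ℕ) (w : ℤ) (s : ℕ) {v : X.V i} {x : X.C} (h : (v, x) ∈ X.limit.sp i w) :
    ((X.monL i ^ s) v, (X.toStrata.monC ^ s) x) ∈ X.limit.sp i w := by
  induction s with
  | zero => simpa using h
  | succ s ih =>
    rw [pow_succ', Module.End.mul_apply, pow_succ', Module.End.mul_apply]
    exact (X.weilAction i).sp_mon w _ _ ih

variable [CharZero Ω] [IsAlgClosed Ω]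

lemma sp_right (i : ℕ) (w : ℤ) {S : Set Ω} {v : X.V i} {x : X.C} (h : (v, x) ∈ X.limit.sp i w)
    (hv : v ∈ ES (X.frobL i) S) : ∃ y ∈ ES (X.toStrata.frobC (i - w)) S, (v, y) ∈ X.limit.sp i w :=
  rel_right (Φ := X.frobL i) (Φ' := X.toStrata.frobC (i - w)) (R := X.limit.sp i w)
    (fun v x h => (X.weilAction i).sp_frob w v x h) h hv

lemma sp_left (i : ℕ) (w : ℤ) {S : Set Ω} {v : X.V i} {x : X.C} (h : (v, x) ∈ X.limit.sp i w)
    (hx : x ∈ ES (X.toStrata.frobC (i - w)) S) : ∃ v' ∈ ES (X.frobL i) S, (v', x) ∈ X.limit.sp i w :=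
  rel_left (Φ := X.frobL i) (Φ' := X.toStrata.frobC (i - w)) (R := X.limit.sp i w)
    (fun v x h => (X.weilAction i).sp_frob w v x h) h hx

/-- The eigenvalues of the Frobenius element on the limit cohomology are Weil numbers. -/
lemma allWeil (hq : 1 < q) (hW : X.toStrata.WeightMonodromy) (i : ℕ) : AllWeil q (X.frobL i) := by
  have hG := X.weightSequence i
  intro α x hx0 hx
  obtain ⟨a, ha⟩ := hG.W_bot
  obtain ⟨t, ht⟩ := hG.W_top
  have h1 : ¬ x ∈ X.limit.W i a := by rw [ha, Submodule.mem_bot]; exact hx0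
  have h2 : x ∈ X.limit.W i t := by rw [ht]; trivial
  have hat : a ≤ t := by
    by_contra hcon
    exact h1 (hG.W_mono (by omega) h2)
  obtain ⟨w, _, _, h3, h4⟩ := step (fun a => x ∈ X.limit.W i a) h1 hat h2
  obtain ⟨y₀, hy₀⟩ := hG.sp_left w x h3
  have h5 : x ∈ ES (X.frobL i) {α} := by
    rw [Strata.ES_singleton, End.mem_maxGenEigenspace]
    refine ⟨1, ?_⟩
    rw [pow_one, LinearMap.sub_apply, hx, LinearMap.smul_apply, Module.End.one_apply, sub_self]
  obtain ⟨y, hy, hxy⟩ := X.sp_right i w hy₀ h5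
  have hy0 : y ≠ 0 := by
    intro h
    rw [h] at hxy
    exact h4 ((hG.sp_ker w x 0 hxy).2 (zero_mem _))
  exact X.toStrata.E₁_weil hq hW (hG.sp_mem w x y hxy).2.1 hy0 hy

lemma key_inj (hq : 1 < q) (hW : X.toStrata.WeightMonodromy) (i : ℕ) (w : ℤ) (s : ℕ) {x : X.V i}
    (hx : x ∈ X.limit.W i w) (hxw : x ∈ WS q (X.frobL i) (w + s))
    (h : (X.monL i ^ s) x ∈ X.limit.W i (w - 1)) : x ∈ X.limit.W i (w - 1) := by
  have hG := X.weightSequence i
  obtain ⟨y₀, hy₀⟩ := hG.sp_left w x hx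
  obtain ⟨y, hy, hxy⟩ := X.sp_right i w hy₀ hxw
  have hyE : y ∈ X.E₁ (i - w) w := (hG.sp_mem w x y hxy).2.1
  have h1 := X.sp_mon_pow i w s hxy
  have h2 : (X.toStrata.monC ^ s) y ∈ X.coboundaries (i - w) w := (hG.sp_ker w _ _ h1).1 h
  have h3 := X.toStrata.monC_pow_WS hq (s := s) hy
  rw [show w + (s : ℤ) - 2 * s = w - s by ring] at h3
  have e1 : ((i : ℤ) - w) = (i - w - 1) + 1 := by ring
  obtain ⟨b, hb, hb', hb''⟩ : ∃ b ∈ X.E₁ (i - w - 1) w,
      b ∈ WS q (X.toStrata.frobC (i - w - 1)) (w - s) ∧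
        X.diff (i - w - 1) b = (X.toStrata.monC ^ s) y := by
    apply X.toStrata.diff_lift hq
    · rw [← e1]; exact h2
    · rw [← e1]; exact h3
  obtain ⟨c, hc, hc', hc''⟩ := X.toStrata.E₁_surj hq hW hb hb'
  have h4 : X.diff (i - w - 1) c ∈ X.E₁ (i - w) w := by
    have := X.toStrata.diff_mem hc
    rwa [← e1] at this
  have h5 : X.diff (i - w - 1) c ∈ WS q (X.toStrata.frobC (i - w)) (w + s) := by
    have := X.toStrata.diff_WS hq hc'
    rwa [← e1] at this
  have h6 : y - X.diff (i - w - 1) c = 0 := by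
    refine X.toStrata.E₁_inj hq hW (sub_mem hyE h4) (sub_mem hy h5) ?_
    rw [map_sub, ← X.toStrata.diff_monC_pow, hc'', hb'', sub_self]
  refine (hG.sp_ker w x y hxy).2 ?_
  rw [sub_eq_zero] at h6
  rw [h6]
  exact ⟨c, hc, rfl⟩

lemma key_surj (hq : 1 < q) (hW : X.toStrata.WeightMonodromy) (i : ℕ) (w : ℤ) (s : ℕ) {y : X.V i}
    (hy : y ∈ X.limit.W i w) (hyw : y ∈ WS q (X.frobL i) (w - s)) :
    ∃ x ∈ X.limit.W i w, x ∈ WS q (X.frobL i) (w + s) ∧
      y - (X.monL i ^ s) x ∈ X.limit.W i (w - 1) := by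
  have hG := X.weightSequence i
  obtain ⟨c₀, hc₀⟩ := hG.sp_left w y hy
  obtain ⟨c, hc, hyc⟩ := X.sp_right i w hc₀ hyw
  have hcZ := (hG.sp_mem w y c hyc).2
  obtain ⟨b, hb, hb', hb''⟩ := X.toStrata.E₁_surj hq hW hcZ.1 hc
  have h1 : X.diff (i - w) b = 0 := by
    refine X.toStrata.E₁_inj hq hW (X.toStrata.diff_mem hb) (X.toStrata.diff_WS hq hb') (s := s) ?_
    rw [← X.toStrata.diff_monC_pow, hb'']
    exact hcZ.2
  obtain ⟨x₀, hx₀⟩ := hG.sp_right w b ⟨hb, h1⟩
  obtain ⟨x, hx, hxb⟩ := X.sp_left i w hx₀ hb'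
  refine ⟨x, (hG.sp_mem w x b hxb).1, hx, ?_⟩
  have h2 := X.sp_mon_pow i w s hxb
  rw [hb''] at h2
  have h3 : (y - (X.monL i ^ s) x, (0 : X.C)) ∈ X.limit.sp i w := by
    have := sub_mem hyc h2
    rwa [Prod.mk_sub_mk, sub_self] at this
  exact (hG.sp_ker w _ _ h3).2 (zero_mem _)

/-- **Purity of the general members of the pencil.** -/
theorem pure_pencil (hq : 1 < q) (hW : X.toStrata.WeightMonodromy) (i : ℕ) :
    ∃ T : Finset Ω, T.card ≤ finrank Ω (X.V i) ^ 2 ∧
      ∀ c ∉ T, IsMWPure q i (X.frobL i) (X.monL i + c • X.loc i) := by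
  refine pure_relative hq (X.allWeil hq hW i) (X.pencil i).mon_frob (X.pencil i).loc_frob ?_
    (X.localMonodromy i) ?_ ?_
  · ext x
    exact (X.pencil i).mon_comm x
  · intro r s x hx hxw h
    rw [show (i : ℤ) + (r - 1) = i + r - 1 by ring] at h ⊢
    exact X.key_inj hq hW i (i + r) s hx hxw h
  · intro r s y hy hyw
    obtain ⟨x, h1, h2, h3⟩ := X.key_surj hq hW i (i + r) s hy hyw
    refine ⟨x, h1, h2, ?_⟩
    rw [show (i : ℤ) + (r - 1) = i + r - 1 by ring]
    exact h3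

end BoundaryFamily

section

variable {Ω : Type} [Field Ω] [CharZero Ω]

/-- A finite set of elements of `Ω` contains the images of finitely many rational numbers. -/
lemma finset_rat (T : Finset Ω) {k : ℕ} (hT : T.card ≤ k) : ∃ T' : Finset ℚ, T'.card ≤ k ∧
    ∀ v : ℚ, v ∉ T' → (v : Ω) ∉ T := by
  classical
  have hinj : Function.Injective (fun v : ℚ => (v : Ω)) := Rat.cast_injective
  refine ⟨T.preimage (fun v : ℚ => (v : Ω)) hinj.injOn, ?_, fun v hv hv' => hv ?_⟩
  · refine le_trans (Finset.card_le_card_of_injOn (fun v : ℚ => (v : Ω)) ?_ hinj.injOn) hT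
    intro v hv
    exact Finset.mem_preimage.1 hv
  · exact Finset.mem_preimage.2 hv'

variable [IsAlgClosed Ω] {q : ℕ} (A : Annulus Ω q)

instance Annulus.finiteV : Module.Finite Ω A.V := A.pencil.finite

lemma Annulus.pure_fibre (hq : 1 < q) {i : ℤ} {v : ℚ}
    (h : IsMWPure q i A.frob (A.mon + (v : Ω) • A.loc)) : A.PureAt i v := by
  intro e f l m he hf
  have he' : (e : Ω) ≠ 0 := by exact_mod_cast he.ne'
  have hq' : 1 < q ^ f := Nat.one_lt_pow (by omega) hq
  refine pure_unip hq' (pure_pow hq h he' hf) ?_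
  have hpow : ∀ (B : Module.End Ω A.V), (∀ x, B (A.frob x) = (q : Ω) • A.frob (B x)) →
      ∀ (k : ℕ) (x : A.V), B ((A.frob ^ k) x) = ((q ^ k : ℕ) : Ω) • (A.frob ^ k) (B x) := by
    intro B hB k
    induction k with
    | zero => intro x; simp
    | succ k ih =>
      intro x
      rw [pow_succ', Module.End.mul_apply, hB, ih, map_smul, smul_smul, Module.End.mul_apply]
      congr 1
      push_cast
      ring
  intro x
  rw [LinearMap.add_apply, LinearMap.smul_apply, LinearMap.smul_apply,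
    hpow _ A.pencil.loc_frob f x, hpow _ A.pencil.mon_frob f x,
    LinearMap.add_apply, LinearMap.smul_apply, LinearMap.smul_apply, map_add, map_smul, map_smul,
    smul_add, smul_comm l, smul_comm m]

lemma Annulus.fibre_pure (hq : 1 < q) {i : ℤ} {v : ℚ} {e f : ℕ} {l m : Ω} (he : 0 < e)
    (hf : 0 < f) (h : IsMWPure (q ^ f) i (A.frobAt f l m) (A.monAt e v)) :
    IsMWPure q i A.frob (A.mon + (v : Ω) • A.loc) := by
  have he' : (e : Ω) ≠ 0 := by exact_mod_cast he.ne'
  refine pure_down hq he' hf ?_ ?_ h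
  · intro x
    rw [LinearMap.add_apply, LinearMap.smul_apply, A.pencil.mon_frob, A.pencil.loc_frob,
      LinearMap.add_apply, LinearMap.smul_apply, map_add, map_smul, smul_add, smul_comm (v : Ω)]
  · intro x
    rw [LinearMap.add_apply, LinearMap.smul_apply, LinearMap.smul_apply, A.pencil.loc_frob,
      A.pencil.mon_frob, LinearMap.add_apply, LinearMap.smul_apply, LinearMap.smul_apply, map_add,
      map_smul, map_smul, smul_add, smul_comm l, smul_comm m]

/-- **The fibres near a semistable fibre.** -/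
theorem BoundaryFamily.pure_near (hq : 1 < q) {Γ : Type} {n : ℕ} (X : BoundaryFamily Ω Γ n q)
    (hW : X.toStrata.WeightMonodromy) (i : ℕ) :
    ∃ T : Finset ℚ, T.card ≤ finrank Ω (X.near i).V ^ 2 ∧ ∀ v ∉ T, (X.near i).PureAt i v := by
  obtain ⟨T, hT, hT'⟩ := X.pure_pencil hq hW i
  obtain ⟨T', h1, h2⟩ := finset_rat T hT
  refine ⟨T', h1, fun v hv => (X.near i).pure_fibre hq ?_⟩
  exact hT' v (h2 v hv)

/-- **The zero-one law.** -/
theorem Annulus.pure_all (hq : 1 < q) {i : ℤ} {v₀ : ℚ} {e₀ f₀ : ℕ} {l₀ m₀ : Ω} (he : 0 < e₀)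
    (hf : 0 < f₀) (hp : IsMWPure (q ^ f₀) i (A.frobAt f₀ l₀ m₀) (A.monAt e₀ v₀)) :
    ∃ T : Finset ℚ, T.card ≤ finrank Ω A.V ^ 2 ∧ ∀ v ∉ T, A.PureAt i v := by
  have h1 := A.fibre_pure hq he hf hp
  obtain ⟨T, hT, hT'⟩ := pure_generic hq (allWeil_of_pure h1) A.pencil.mon_frob
    A.pencil.loc_frob h1
  obtain ⟨T', h2, h3⟩ := finset_rat T hT
  exact ⟨T', h2, fun v hv => A.pure_fibre hq (hT' v (h3 v hv))⟩

end

end Pool.Agent.W2helper36.WM
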