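import Pool.Agent.W2helper36.WM.Core

/-!
# Generic members of the pencil `N + c Z` are centred
-/

set_option autoImplicit false
set_option linter.unusedSectionVars false

open Module

namespace Pool.Agent.W2helper36.WM

open Pool.Agent.Y143 Pool.Agent.Y163.MW

universe u v

section Coord

variable {K : Type u} [Field K] {V : Type v} [AddCommGroup V] [Module K V]
  {ι : Type} [Fintype ι] (b : Basis ι K V) (f : ι → ℤ)

/-- The vectors of degree `r`. -/
def G (r : ℤ) : Submodule K V := Submodule.span K (b '' {i | f i = r})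

lemma mem_G {r : ℤ} {x : V} : x ∈ G b f r ↔ ∀ i, f i ≠ r → b.repr x i = 0 := by
  unfold G
  rw [Basis.mem_span_image]
  constructor
  · intro h i hi
    by_contra h1
    exact hi (h (Finsupp.mem_support_iff.2 h1))
  · intro h i hi
    by_contra h1
    exact (Finsupp.mem_support_iff.1 hi) (h i h1)

lemma b_mem_G (i : ι) : b i ∈ G b f (f i) := Submodule.subset_span ⟨i, rfl, rfl⟩

lemma isInternal_G : DirectSum.IsInternal (G b f) := by
  classical
  have h1 : iSupIndep (fun i => Submodule.span K {b i}) := by
    exact b.linearIndependent.iSupIndep_span_singleton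
  have h2 : G b f = fun r => ⨆ (i : ι) (_ : f i = r), Submodule.span K {b i} := by
    funext r
    unfold G
    rw [Submodule.span_eq_iSup_of_singleton_spans, iSup_image]
    rfl
  apply DirectSum.isInternal_submodule_of_iSupIndep_of_iSup_eq_top
  · rw [h2]
    exact iSupIndep_fib h1 f
  · rw [eq_top_iff, ← b.span_eq, Submodule.span_le]
    rintro _ ⟨i, rfl⟩
    exact Submodule.mem_iSup_of_mem (f i) (b_mem_G b f i)

/-- The component of degree `r`. -/
noncomputable def pj (r : ℤ) : Module.End K V := b.constr K fun i => if f i = r then b i else 0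

lemma pj_b (r : ℤ) (i : ι) : pj b f r (b i) = if f i = r then b i else 0 := by
  unfold pj
  rw [Basis.constr_basis]

lemma repr_pj (r : ℤ) (x : V) (i : ι) :
    b.repr (pj b f r x) i = if f i = r then b.repr x i else 0 := by
  classical
  conv_lhs => rw [← b.sum_repr x]
  rw [map_sum, map_sum, Finset.sum_apply']
  simp only [map_smul, pj_b, Finsupp.smul_apply, smul_eq_mul]
  rw [Finset.sum_eq_single i]
  · split_ifs
    · rw [Basis.repr_self, Finsupp.single_eq_same, mul_one]
    · rw [map_zero, Finsupp.zero_apply, mul_zero]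
  · intro j _ hj
    split_ifs
    · rw [Basis.repr_self, Finsupp.single_apply, if_neg hj, mul_zero]
    · rw [map_zero, Finsupp.zero_apply, mul_zero]
  · intro h
    exact absurd (Finset.mem_univ i) h

lemma pj_mem (r : ℤ) (x : V) : pj b f r x ∈ G b f r := by
  rw [mem_G]
  intro i hi
  rw [repr_pj, if_neg hi]

lemma pj_of_mem {r : ℤ} {x : V} (hx : x ∈ G b f r) : pj b f r x = x := by
  rw [mem_G] at hx
  apply b.repr.injective
  ext i
  rw [repr_pj]
  split_ifs with h
  · rfl
  · exact (hx i h).symm

lemma pj_of_mem_ne {r s : ℤ} (hrs : r ≠ s) {x : V} (hx : x ∈ G b f r) : pj b f s x = 0 := by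
  rw [mem_G] at hx
  apply b.repr.injective
  ext i
  rw [repr_pj, map_zero, Finsupp.zero_apply]
  split_ifs with h
  · exact hx i (by omega)
  · rfl

lemma pj_comm (g : ι → ℤ) (r s : ℤ) (x : V) : pj b f r (pj b g s x) = pj b g s (pj b f r x) := by
  apply b.repr.injective
  ext i
  rw [repr_pj, repr_pj, repr_pj, repr_pj]
  split_ifs <;> rfl

lemma pj_mem_of_mem (g : ι → ℤ) (r : ℤ) {s : ℤ} {x : V} (hx : x ∈ G b g s) :
    pj b f r x ∈ G b g s := by
  rw [mem_G] at hx ⊢
  intro i hi
  rw [repr_pj, hx i hi]
  simp

/-- An element is the sum of its components. -/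
lemma sum_pj {B : ℤ} (hB : ∀ i, |f i| ≤ B) (x : V) : ∑ r ∈ Finset.Icc (-B) B, pj b f r x = x := by
  classical
  apply b.repr.injective
  ext i
  rw [map_sum, Finset.sum_apply']
  simp only [repr_pj]
  rw [Finset.sum_eq_single (f i)]
  · rw [if_pos rfl]
  · intro r _ hr
    rw [if_neg (Ne.symm hr)]
  · intro h
    exfalso
    apply h
    rw [Finset.mem_Icc]
    exact abs_le.1 (hB i)

/-- An operator of degree `k` commutes with the projections. -/
lemma hom_pj {T : Module.End K V} {k : ℤ} (hT : ∀ r, ∀ x ∈ G b f r, T x ∈ G b f (r + k)) (r : ℤ)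
    (x : V) : T (pj b f r x) = pj b f (r + k) (T x) := by
  have h : T * pj b f r = pj b f (r + k) * T := by
    refine b.ext fun i => ?_
    rw [Module.End.mul_apply, Module.End.mul_apply, pj_b]
    split_ifs with h
    · symm
      apply pj_of_mem
      rw [← h]
      exact hT _ _ (b_mem_G b f i)
    · rw [map_zero]
      symm
      exact pj_of_mem_ne b f (fun h1 => h (by omega)) (hT _ _ (b_mem_G b f i))
  exact congrArg (fun S : Module.End K V => S x) h

/-- The part of degree `k` of the operator `T`. -/
noncomputable def part (k : ℤ) (T : Module.End K V) : Module.End K V :=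
  b.constr K fun i => pj b f (f i + k) (T (b i))

lemma part_b (k : ℤ) (T : Module.End K V) (i : ι) :
    part b f k T (b i) = pj b f (f i + k) (T (b i)) := by
  unfold part
  rw [Basis.constr_basis]

lemma part_apply (k : ℤ) (T : Module.End K V) {r : ℤ} {x : V} (hx : x ∈ G b f r) :
    part b f k T x = pj b f (r + k) (T x) := by
  have h : part b f k T * pj b f r = pj b f (r + k) * T * pj b f r := by
    refine b.ext fun i => ?_
    rw [Module.End.mul_apply, Module.End.mul_apply, Module.End.mul_apply, pj_b]
    split_ifs with h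
    · rw [part_b, h]
    · simp
  have h1 := congrArg (fun S : Module.End K V => S x) h
  simp only [Module.End.mul_apply] at h1
  rwa [pj_of_mem b f hx] at h1

lemma part_mem (k : ℤ) (T : Module.End K V) {r : ℤ} {x : V} (hx : x ∈ G b f r) :
    part b f k T x ∈ G b f (r + k) := by
  rw [part_apply b f k T hx]
  exact pj_mem b f _ _

/-- If `T` respects the grading `g` up to a shift by `l`, so do its parts. -/
lemma part_mem' (g : ι → ℤ) (k l : ℤ) {T : Module.End K V}
    (hT : ∀ r, ∀ x ∈ G b g r, T x ∈ G b g (r + l)) {r : ℤ} {x : V} (hx : x ∈ G b g r) :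
    part b f k T x ∈ G b g (r + l) := by
  unfold G at hx
  induction hx using Submodule.span_induction with
  | mem x hx =>
    obtain ⟨i, hi, rfl⟩ := hx
    rw [part_b]
    apply pj_mem_of_mem
    apply hT
    rw [← show g i = r from hi]
    exact b_mem_G b g i
  | zero => rw [map_zero]; exact zero_mem _
  | add x y _ _ hx hy => rw [map_add]; exact add_mem hx hy
  | smul c x _ hx => rw [map_smul]; exact Submodule.smul_mem _ _ hx

/-- The filtration by the degree. -/
def Fl (r : ℤ) : Submodule K V := Submodule.span K (b '' {i | f i ≤ r})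

lemma mem_Fl {r : ℤ} {x : V} : x ∈ Fl b f r ↔ ∀ i, r < f i → b.repr x i = 0 := by
  unfold Fl
  rw [Basis.mem_span_image]
  constructor
  · intro h i hi
    by_contra h1
    have h2 := h (Finsupp.mem_support_iff.2 h1)
    exact absurd h2 (not_le.2 hi)
  · intro h i hi
    by_contra h1
    exact (Finsupp.mem_support_iff.1 hi) (h i (not_le.1 h1))

lemma G_le_Fl (r : ℤ) : G b f r ≤ Fl b f r :=
  Submodule.span_mono (Set.image_mono fun i (hi : f i = r) => hi.le)

lemma Fl_mono : Monotone (Fl b f) := fun _ _ h =>
  Submodule.span_mono (Set.image_mono fun _ hi => le_trans hi h)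

lemma pj_of_Fl {r s : ℤ} (hrs : s < r) {x : V} (hx : x ∈ Fl b f s) : pj b f r x = 0 := by
  rw [mem_Fl] at hx
  apply b.repr.injective
  ext i
  rw [repr_pj, map_zero, Finsupp.zero_apply]
  split_ifs with h
  · exact hx i (by omega)
  · rfl

lemma sub_pj_mem {r : ℤ} {x : V} (hx : x ∈ Fl b f r) : x - pj b f r x ∈ Fl b f (r - 1) := by
  rw [mem_Fl] at hx ⊢
  intro i hi
  rw [map_sub, Finsupp.sub_apply, repr_pj]
  split_ifs with h
  · rw [sub_self]
  · rw [hx i (by omega), sub_zero]

lemma eq_zero_of_Fl {r : ℤ} {x : V} (hx : x ∈ G b f r) (hx' : x ∈ Fl b f (r - 1)) : x = 0 := by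
  rw [← pj_of_mem b f hx]
  exact pj_of_Fl b f (by omega) hx'

/-- An operator which respects the filtration is the sum of its parts of degree `≤ 0`. -/
lemma sum_part {T : Module.End K V} (hT : ∀ r, ∀ x ∈ Fl b f r, T x ∈ Fl b f r) {B : ℕ}
    (hB : ∀ i, |f i| ≤ B) : ∑ k ∈ Finset.range (2 * B + 1), part b f (-(k : ℤ)) T = T := by
  classical
  refine b.ext fun i => ?_
  rw [LinearMap.sum_apply]
  simp only [part_b]
  apply b.repr.injective
  ext j
  rw [map_sum, Finset.sum_apply']
  simp only [repr_pj]
  have h0 := hT (f i) (b i) (G_le_Fl b f _ (b_mem_G b f i))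
  rw [mem_Fl] at h0
  by_cases hj : f j ≤ f i
  · rw [Finset.sum_eq_single (f i - f j).toNat]
    · rw [if_pos (by omega)]
    · intro k _ hk
      rw [if_neg (by omega)]
    · intro h
      exfalso
      apply h
      rw [Finset.mem_range]
      have h1 := abs_le.1 (hB i)
      have h2 := abs_le.1 (hB j)
      omega
  · rw [h0 j (by omega)]
    simp

end Coord

end Pool.Agent.W2helper36.WM
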