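import Pool.Agent.W2helper36.WM.Gen

/-!
# Generic members of the pencil `N + c Z` are centred, II
-/

set_option autoImplicit false
set_option linter.unusedSectionVars false

open Module

namespace Pool.Agent.W2helper36.WM

open Pool.Agent.Y143 Pool.Agent.Y163.MW

universe u v

variable {K : Type u} [Field K] {V : Type v} [AddCommGroup V] [Module K V]

lemma pow_shift {U : ℤ → Submodule K V} {N : Module.End K V} {k : ℤ}
    (hN : ∀ r, ∀ x ∈ U r, N x ∈ U (r + k)) (m : ℕ) (r : ℤ) {x : V} (hx : x ∈ U r) :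
    (N ^ m) x ∈ U (r + m * k) := by
  induction m with
  | zero => simpa using hx
  | succ m ih =>
    rw [pow_succ', Module.End.mul_apply]
    have := hN _ _ ih
    rwa [show r + (m : ℤ) * k + k = r + ((m + 1 : ℕ) : ℤ) * k by push_cast; ring] at this

lemma pow_low {U : ℤ → Submodule K V} {N : Module.End K V}
    (hN : ∀ r, ∀ x ∈ U r, N x ∈ U (r - 2)) (m : ℕ) (r : ℤ) {x : V} (hx : x ∈ U r) :
    (N ^ m) x ∈ U (r - 2 * m) := by
  have := pow_shift (k := -2) (fun r x hx => by
    have := hN r x hx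
    rwa [sub_eq_add_neg] at this) m r hx
  rwa [show r + (m : ℤ) * -2 = r - 2 * m by ring] at this

/-- Injectivity between subspaces of the same dimension implies surjectivity. -/
lemma surj_of_inj [Module.Finite K V] {P Q : Submodule K V} {T : Module.End K V}
    (hT : ∀ x ∈ P, T x ∈ Q) (hinj : ∀ x ∈ P, T x = 0 → x = 0) (hd : finrank K P = finrank K Q) :
    ∀ y ∈ Q, ∃ x ∈ P, T x = y := by
  let f : P →ₗ[K] Q := T.restrict hT
  have hf : Function.Injective f := by
    rw [injective_iff_map_eq_zero]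
    rintro ⟨x, hx⟩ h
    exact Subtype.ext (hinj x hx (congrArg Subtype.val h))
  have hs := (LinearMap.injective_iff_surjective_of_finrank_eq_finrank hd).1 hf
  intro y hy
  obtain ⟨⟨x, hx⟩, hxy⟩ := hs ⟨y, hy⟩
  exact ⟨x, hx, congrArg Subtype.val hxy⟩

lemma finrank_eq_of_centred [Module.Finite K V] {U : ℤ → Submodule K V} {N : Module.End K V}
    (hN : ∀ r, ∀ x ∈ U r, N x ∈ U (r - 2)) (hC : Centred U N) (m : ℕ) :
    finrank K (U m) = finrank K (U (-(m : ℤ))) := by
  have hT : ∀ x ∈ U m, (N ^ m) x ∈ U (-(m : ℤ)) := by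
    intro x hx
    have := pow_low hN m _ hx
    rwa [show (m : ℤ) - 2 * m = -m by ring] at this
  let f : U m →ₗ[K] U (-(m : ℤ)) := (N ^ m).restrict hT
  have hf : Function.Bijective f := by
    constructor
    · rw [injective_iff_map_eq_zero]
      rintro ⟨x, hx⟩ h
      exact Subtype.ext ((hC m).1 x hx (congrArg Subtype.val h))
    · rintro ⟨y, hy⟩
      obtain ⟨x, hx, hxy⟩ := (hC m).2 y hy
      exact ⟨⟨x, hx⟩, Subtype.ext hxy⟩
  exact (LinearEquiv.ofBijective f hf).finrank_eq

/-- The members of the pencil depend polynomially on the parameter. -/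
lemma polyFam_pencil (N Z : Module.End K V) : PolyFam 1 (fun c : K => N + c • Z) := by
  have h1 := (PolyFam.const (K := K) (V := V) (W := V) Z).pow_smul 1
  simp only [pow_one, Nat.zero_add] at h1
  exact ((PolyFam.const N).mono (Nat.zero_le 1)).add h1

/-- **If one member of the pencil is centred, so are all but finitely many.** -/
theorem centred_generic [CharZero K] [Module.Finite K V] {U : ℤ → Submodule K V}
    (hU : DirectSum.IsInternal U) {N Z : Module.End K V}
    (hN : ∀ r, ∀ x ∈ U r, N x ∈ U (r - 2)) (hZ : ∀ r, ∀ x ∈ U r, Z x ∈ U (r - 2))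
    {c₀ : K} (h₀ : Centred U (N + c₀ • Z)) :
    ∃ T : Finset K, T.card ≤ finrank K V ^ 2 ∧ ∀ c ∉ T, Centred U (N + c • Z) := by
  classical
  have hP : ∀ c : K, ∀ r, ∀ x ∈ U r, (N + c • Z) x ∈ U (r - 2) := fun c r x hx =>
    add_mem (hN r x hx) (Submodule.smul_mem _ _ (hZ r x hx))
  obtain ⟨S⟩ := Pool.Agent.Y153.MW.stA K V U (N + c₀ • Z) hU (hP c₀)
  have hs := (Pool.Agent.Y614.MW.stF K V U (N + c₀ • Z) hU S).1 h₀
  have hcard : finrank K V = Fintype.card (Σ s : S.ι, Fin (S.len s + 1)) :=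
    finrank_eq_card_basis S.b
  have hlen : ∀ s, S.len s + 1 ≤ finrank K V := by
    intro s
    rw [hcard, ← Fintype.card_fin (S.len s + 1)]
    exact Fintype.card_le_of_injective (fun i => (⟨s, i⟩ : Σ s : S.ι, Fin (S.len s + 1)))
      (fun i j h => by simpa using h)
  -- the degrees of the basis
  obtain ⟨w, hw⟩ : ∃ w : (Σ s : S.ι, Fin (S.len s + 1)) → ℤ,
      w = fun p => S.top p.1 - 2 * ((p.2 : ℕ) : ℤ) := ⟨_, rfl⟩
  have hwm : ∀ p, S.b p ∈ U (w p) := fun p => by rw [hw]; exact S.mem p.1 p.2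
  have hUG : ∀ r, U r = Submodule.span K (S.b '' {i | w i = r}) := fun r =>
    gr_eq_span hU.submodule_iSupIndep S.b w hwm r
  have hzero : ∀ m : ℕ, finrank K V ≤ m → ∀ x ∈ U (m : ℤ), x = 0 := by
    intro m hm x hx
    have h1 : {i | w i = (m : ℤ)} = ∅ := by
      ext p
      simp only [Set.mem_ofPred_eq, Set.mem_empty_iff_false, iff_false]
      intro h
      have h2 := hlen p.1
      rw [hw] at h
      simp only [hs] at h
      omega
    rw [hUG, h1, Set.image_empty, Submodule.span_empty, Submodule.mem_bot] at hx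
    exact hx
  have hbad : ∀ m : ℕ, ∃ T : Finset K, T.card ≤ finrank K (U (m : ℤ)) * m ∧ ∀ c ∉ T,
      ∀ x ∈ U (m : ℤ), ((N + c • Z) ^ m) x = 0 → x = 0 := by
    intro m
    have h1 : PolyFam (m * 1) (fun c : K => ((N + c • Z) ^ m) ∘ₗ (U (m : ℤ)).subtype) :=
      ((polyFam_pencil N Z).pow m).comp_const _
    rw [Nat.mul_one] at h1
    have h2 : Function.Injective (((N + c₀ • Z) ^ m) ∘ₗ (U (m : ℤ)).subtype) := by
      rw [injective_iff_map_eq_zero]
      rintro ⟨x, hx⟩ h
      exact Subtype.ext ((h₀ m).1 x hx h)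
    obtain ⟨T, hT, hT'⟩ := h1.finite_bad c₀ h2
    refine ⟨T, hT, fun c hc x hx h => ?_⟩
    have h3 := (injective_iff_map_eq_zero _).1 (hT' c hc) ⟨x, hx⟩ h
    exact congrArg Subtype.val h3
  choose T hT hT' using hbad
  refine ⟨(Finset.range (finrank K V)).biUnion T, ?_, ?_⟩
  · refine Finset.card_biUnion_le.trans ?_
    have h1 : ∀ m ∈ Finset.range (finrank K V), (T m).card ≤
        finrank K (U (m : ℤ)) * finrank K V := fun m hm =>
      (hT m).trans (Nat.mul_le_mul_left _ (Finset.mem_range.1 hm).le)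
    refine (Finset.sum_le_sum h1).trans ?_
    rw [← Finset.sum_mul, sq]
    refine Nat.mul_le_mul_right _ ?_
    have h2 : ∀ m : ℕ, finrank K (U (m : ℤ)) =
        (Finset.univ.filter (fun p => w p = (m : ℤ))).card := by
      intro m
      rw [finrank_gr hU.submodule_iSupIndep S.b w hwm, Nat.card_eq_fintype_card,
        Fintype.card_subtype]
    simp only [h2]
    refine le_trans ?_ hcard.symm.le
    obtain ⟨A, hA⟩ : ∃ A : Finset (Σ s : S.ι, Fin (S.len s + 1)), A = Finset.univ.filter
      (fun p => w p ∈ (Finset.range (finrank K V)).image (fun m : ℕ => (m : ℤ))) := ⟨_, rfl⟩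
    have h3 := Finset.card_eq_sum_card_fiberwise (s := A)
      (t := (Finset.range (finrank K V)).image (fun m : ℕ => (m : ℤ))) (f := w)
      (fun p hp => by
        rw [hA] at hp
        exact (Finset.mem_filter.1 hp).2)
    rw [Finset.sum_image (fun x _ y _ h => by exact_mod_cast h)] at h3
    refine le_trans ?_ (Finset.card_le_univ A)
    rw [h3]
    refine Finset.sum_le_sum fun m hm => Finset.card_le_card ?_
    intro p hp
    rw [hA]
    simp only [Finset.mem_filter, Finset.mem_univ, true_and] at hp ⊢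
    refine ⟨?_, hp⟩
    rw [hp]
    exact Finset.mem_image_of_mem _ hm
  · intro c hc m
    have hinj : ∀ x ∈ U (m : ℤ), ((N + c • Z) ^ m) x = 0 → x = 0 := by
      intro x hx h
      by_cases hm : m < finrank K V
      · refine hT' m c (fun h1 => hc ?_) x hx h
        exact Finset.mem_biUnion.2 ⟨m, Finset.mem_range.2 hm, h1⟩
      · exact hzero m (by omega) x hx
    refine ⟨hinj, ?_⟩
    refine surj_of_inj ?_ hinj (finrank_eq_of_centred (hP c₀) h₀ m)
    intro x hx
    have := pow_low (hP c) m _ hx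
    rwa [show (m : ℤ) - 2 * m = -m by ring] at this

end Pool.Agent.W2helper36.WM
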