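import Pool.Agent.W2helper36.WM.Gen2

/-!
# The leading part of the pencil and the existence of a centred member
-/

set_option autoImplicit false
set_option linter.unusedSectionVars false

open Module

namespace Pool.Agent.W2helper36.WM

open Pool.Agent.Y143 Pool.Agent.Y163.MW

universe u v

section Coord

variable {K : Type u} [Field K] {V : Type v} [AddCommGroup V] [Module K V]
  {ι : Type} [Fintype ι] {b : Basis ι K V} {a w : ι → ℤ} {N : Module.End K V}

/-- Degrees for the difference of two gradings. -/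
lemma mem_diff {r s : ℤ} {x : V} (h1 : x ∈ G b a r) (h2 : x ∈ G b w s) :
    x ∈ G b (fun i => w i - a i) (s - r) := by
  rw [mem_G] at *
  intro i hi
  by_cases h : a i = r
  · exact h2 i (fun h3 => hi (by omega))
  · exact h1 i h

lemma mem_add {r s : ℤ} {x : V} (h1 : x ∈ G b a r) (h2 : x ∈ G b (fun i => w i - a i) s) :
    x ∈ G b w (r + s) := by
  rw [mem_G] at *
  intro i hi
  by_cases h : a i = r
  · exact h2 i (fun h3 => hi (by omega))
  · exact h1 i h

/-- Modulo lower terms, the powers of `N` are the powers of its leading part. -/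
lemma pow_sub_mem (hN : ∀ r, ∀ x ∈ Fl b a r, N x ∈ Fl b a r) {r : ℤ} {x : V}
    (hx : x ∈ G b a r) (m : ℕ) :
    ((part b a 0 N) ^ m) x ∈ G b a r ∧ (N ^ m) x - ((part b a 0 N) ^ m) x ∈ Fl b a (r - 1) := by
  induction m with
  | zero =>
    refine ⟨by simpa using hx, ?_⟩
    rw [pow_zero, pow_zero, sub_self]
    exact zero_mem _
  | succ m ih =>
    obtain ⟨h1, h2⟩ := ih
    rw [pow_succ', pow_succ', Module.End.mul_apply, Module.End.mul_apply]
    have h3 := part_mem b a 0 N h1
    rw [add_zero] at h3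
    refine ⟨h3, ?_⟩
    have h4 := sub_pj_mem b a (hN r _ (G_le_Fl b a r h1))
    have h5 := part_apply b a 0 N h1
    rw [add_zero] at h5
    rw [h5]
    have h6 := hN _ _ h2
    rw [map_sub] at h6
    have h7 := add_mem h4 h6
    convert h7 using 1
    abel

/-- **The leading part of `N` is centred** if `N` is so on the graded pieces. -/
theorem centred_part (hN : ∀ r, ∀ x ∈ Fl b a r, N x ∈ Fl b a r)
    (hinj : ∀ (r : ℤ) (s : ℕ), ∀ x ∈ Fl b a r, x ∈ G b w (r + s) → (N ^ s) x ∈ Fl b a (r - 1) →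
      x ∈ Fl b a (r - 1))
    (hsurj : ∀ (r : ℤ) (s : ℕ), ∀ y ∈ Fl b a r, y ∈ G b w (r - s) →
      ∃ x ∈ Fl b a r, x ∈ G b w (r + s) ∧ y - (N ^ s) x ∈ Fl b a (r - 1)) :
    Centred (G b (fun i => w i - a i)) (part b a 0 N) := by
  classical
  obtain ⟨B, hB⟩ : ∃ B : ℤ, ∀ i, |a i| ≤ B :=
    ⟨∑ i, |a i|, fun i => Finset.single_le_sum (f := fun i => |a i|) (fun j _ => abs_nonneg _)
      (Finset.mem_univ i)⟩
  have hN0 : ∀ r, ∀ x ∈ G b a r, (part b a 0 N) x ∈ G b a (r + 0) := fun r x hx =>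
    part_mem b a 0 N hx
  intro s
  have hpow : ∀ r, ∀ x ∈ G b a r, ((part b a 0 N) ^ s) x ∈ G b a (r + 0) := by
    intro r x hx
    have := pow_shift hN0 s r hx
    simpa using this
  constructor
  · intro x hx h0
    rw [← sum_pj b a hB x]
    refine Finset.sum_eq_zero fun r _ => ?_
    have h1 := pj_mem b a r x
    have h2 := mem_add h1 (pj_mem_of_mem b a (fun i => w i - a i) r hx)
    have h3 : ((part b a 0 N) ^ s) (pj b a r x) = 0 := by
      rw [hom_pj b a hpow, h0, map_zero]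
    have h4 := (pow_sub_mem hN h1 s).2
    rw [h3, sub_zero] at h4
    exact eq_zero_of_Fl b a h1 (hinj r s _ (G_le_Fl b a r h1) h2 h4)
  · intro y hy
    have key : ∀ r : ℤ, ∃ x ∈ G b (fun i => w i - a i) (s : ℤ),
        ((part b a 0 N) ^ s) x = pj b a r y := by
      intro r
      have h1 := pj_mem b a r y
      have h2 := mem_add h1 (pj_mem_of_mem b a (fun i => w i - a i) r hy)
      rw [← sub_eq_add_neg] at h2
      obtain ⟨x, hx, hxw, hxy⟩ := hsurj r s _ (G_le_Fl b a r h1) h2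
      have h3 := pj_mem b a r x
      refine ⟨pj b a r x, ?_, ?_⟩
      · have := mem_diff h3 (pj_mem_of_mem b a w r hxw)
        rwa [show r + (s : ℤ) - r = s by ring] at this
      · obtain ⟨h4, h5⟩ := pow_sub_mem hN h3 s
        rw [← sub_eq_zero]
        refine eq_zero_of_Fl b a (r := r) (sub_mem h4 h1) ?_
        have h6 : ∀ m : ℕ, (N ^ m) (x - pj b a r x) ∈ Fl b a (r - 1) := by
          intro m
          induction m with
          | zero => simpa using sub_pj_mem b a hx
          | succ m ih =>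
            rw [pow_succ', Module.End.mul_apply]
            exact hN _ _ ih
        have h7 := neg_mem (add_mem (add_mem hxy (h6 s)) h5)
        rw [map_sub] at h7
        convert h7 using 1
        abel
    choose x hx hx' using key
    refine ⟨∑ r ∈ Finset.Icc (-B) B, x r, Submodule.sum_mem _ fun r _ => hx r, ?_⟩
    rw [map_sum]
    simp only [hx']
    exact sum_pj b a hB y

end Coord

variable {K : Type u} [Field K] {V : Type v} [AddCommGroup V] [Module K V]

/-- **Existence of a centred member of the pencil.** `M` is the monodromy filtration of `Z`, and on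
the graded piece `M_r / M_(r - 1)` the operator `N` is centred at `r`. -/
theorem exists_centred [CharZero K] [Module.Finite K V] {U : ℤ → Submodule K V}
    (hU : DirectSum.IsInternal U) {N Z : Module.End K V}
    (hN : ∀ r, ∀ x ∈ U r, N x ∈ U (r - 2)) (hZ : ∀ r, ∀ x ∈ U r, Z x ∈ U (r - 2))
    (hNZ : N * Z = Z * N) {M : ℤ → Submodule K V} (hM : IsMonodromyFiltrationOn ⊤ Z M)
    (hinj : ∀ (r : ℤ) (s : ℕ), ∀ x ∈ M r, x ∈ U (r + s) → (N ^ s) x ∈ M (r - 1) → x ∈ M (r - 1))
    (hsurj : ∀ (r : ℤ) (s : ℕ), ∀ y ∈ M r, y ∈ U (r - s) →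
      ∃ x ∈ M r, x ∈ U (r + s) ∧ y - (N ^ s) x ∈ M (r - 1)) :
    ∃ c : K, Centred U (N + c • Z) := by
  classical
  obtain ⟨S⟩ := Pool.Agent.Y153.MW.stA K V U Z hU hZ
  obtain ⟨e₁, h₁, H₁⟩ := Pool.Agent.Y664.MW.t_B2 K V U Z S
  obtain ⟨w, hw⟩ : ∃ w : (Σ s : S.ι, Fin (S.len s + 1)) → ℤ,
      w = fun p => S.top p.1 - 2 * ((p.2 : ℕ) : ℤ) := ⟨_, rfl⟩
  obtain ⟨a, ha⟩ : ∃ a : (Σ s : S.ι, Fin (S.len s + 1)) → ℤ,
      a = fun p => (S.len p.1 : ℤ) - 2 * ((p.2 : ℕ) : ℤ) := ⟨_, rfl⟩
  rw [← ha] at H₁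
  have hwm : ∀ p, S.b p ∈ U (w p) := fun p => by rw [hw]; exact S.mem p.1 p.2
  have hUG : ∀ r, U r = G S.b w r := fun r =>
    gr_eq_span hU.submodule_iSupIndep S.b w hwm r
  have hMF : ∀ r, M r = Fl S.b a r := fun r =>
    Pool.Agent.Y68.MW.stD Pool.Agent.Y141.MW.stL K V Z _ S.b a e₁ h₁ H₁ M hM r
  have hNM : ∀ r, ∀ x ∈ Fl S.b a r, N x ∈ Fl S.b a r := by
    intro r x hx
    rw [← hMF] at hx ⊢
    refine hM.functorial hM N (fun _ _ => trivial) (c := 1) one_ne_zero (fun x _ => ?_) r hx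
    rw [one_smul]
    exact (congrArg (fun T : Module.End K V => T x) hNZ).symm
  have hZb : ∀ p, Z (S.b p) ∈ G S.b a (a p - 2) := by
    rintro ⟨s, i⟩
    induction i using Fin.lastCases with
    | last =>
      rw [S.last]
      exact zero_mem _
    | cast i =>
      rw [S.succ]
      have h1 : a ⟨s, i.castSucc⟩ - 2 = a ⟨s, i.succ⟩ := by
        rw [ha]
        simp only [Fin.val_castSucc, Fin.val_succ]
        push_cast
        ring
      rw [h1]
      exact b_mem_G _ _ _
  have hZa : ∀ r, ∀ x ∈ G S.b a r, Z x ∈ G S.b a (r + -2) := by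
    intro r x hx
    unfold G at hx
    induction hx using Submodule.span_induction with
    | mem x hx =>
      obtain ⟨p, hp, rfl⟩ := hx
      rw [← show a p = r from hp, ← sub_eq_add_neg]
      exact hZb p
    | zero => rw [map_zero]; exact zero_mem _
    | add x y _ _ hx hy => rw [map_add]; exact add_mem hx hy
    | smul c x _ hx => rw [map_smul]; exact Submodule.smul_mem _ _ hx
  have hNw : ∀ r, ∀ x ∈ G S.b w r, N x ∈ G S.b w (r + -2) := by
    intro r x hx
    rw [← hUG] at hx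
    rw [← hUG, ← sub_eq_add_neg]
    exact hN r x hx
  have hZw : ∀ r, ∀ x ∈ G S.b w r, Z x ∈ G S.b w (r + -2) := by
    intro r x hx
    rw [← hUG] at hx
    rw [← hUG, ← sub_eq_add_neg]
    exact hZ r x hx
  obtain ⟨N₀, hN₀⟩ : ∃ N₀, N₀ = part S.b a 0 N := ⟨_, rfl⟩
  have hC : Centred (G S.b (fun i => w i - a i)) N₀ := by
    rw [hN₀]
    refine centred_part hNM ?_ ?_
    · intro r s x hx hxw hxs
      rw [← hMF] at hx hxs ⊢
      rw [← hUG] at hxw
      exact hinj r s x hx hxw hxs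
    · intro r s y hy hyw
      rw [← hMF] at hy ⊢
      rw [← hUG] at hyw
      obtain ⟨x, h1, h2, h3⟩ := hsurj r s y hy hyw
      rw [hUG] at h2
      rw [hMF] at h3
      exact ⟨x, h1, h2, h3⟩
  have hN₀w : ∀ r, ∀ x ∈ G S.b w r, N₀ x ∈ G S.b w (r + -2) := by
    intro r x hx
    rw [hN₀]
    exact part_mem' S.b a w 0 (-2) hNw hx
  have hN₀a : ∀ r, ∀ x ∈ G S.b a r, N₀ x ∈ G S.b a r := by
    intro r x hx
    rw [hN₀]
    have := part_mem S.b a 0 N hx
    rwa [add_zero] at this
  -- degree for the difference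
  have hlow : ∀ T : Module.End K V, ∀ k l : ℤ, (∀ r, ∀ x ∈ G S.b a r, T x ∈ G S.b a (r + k)) →
      (∀ r, ∀ x ∈ G S.b w r, T x ∈ G S.b w (r + l)) → ∀ s, ∀ x ∈ G S.b (fun i => w i - a i) s,
      T x ∈ G S.b (fun i => w i - a i) (s + (l - k)) := by
    intro T k l hk hl s x hx
    unfold G at hx
    induction hx using Submodule.span_induction with
    | mem x hx =>
      obtain ⟨p, hp, rfl⟩ := hx
      have h1 := mem_diff (hk _ _ (b_mem_G S.b a p)) (hl _ _ (b_mem_G S.b w p))
      have h2 : w p - a p = s := hp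
      rwa [show w p + l - (a p + k) = s + (l - k) by rw [← h2]; ring] at h1
    | zero => rw [map_zero]; exact zero_mem _
    | add x y _ _ hx hy => rw [map_add]; exact add_mem hx hy
    | smul c x _ hx => rw [map_smul]; exact Submodule.smul_mem _ _ hx
  have hN₀d : ∀ s, ∀ x ∈ G S.b (fun i => w i - a i) s,
      N₀ x ∈ G S.b (fun i => w i - a i) (s - 2) := by
    intro s x hx
    have := hlow N₀ 0 (-2) (fun r x hx => by rw [add_zero]; exact hN₀a r x hx) hN₀w s x hx
    rwa [sub_zero, ← sub_eq_add_neg] at this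
  have hZd : ∀ s, ∀ x ∈ G S.b (fun i => w i - a i) s,
      Z x ∈ G S.b (fun i => w i - a i) s := by
    intro s x hx
    have := hlow Z (-2) (-2) hZa hZw s x hx
    rwa [sub_self, add_zero] at this
  obtain ⟨e₂, h₂, hh, heN, hhN, hhe⟩ := exists_sl2 (isInternal_G S.b (fun i => w i - a i)) hN₀d hC
  have H₂ : IsSl2 N₀ S.b (fun i => w i - a i) e₂ h₂ :=
    ⟨fun i => hh _ _ (b_mem_G S.b (fun i => w i - a i) i), heN, hhN, hhe⟩
  -- commutation
  have hN₀Z : N₀ * Z = Z * N₀ := by
    refine S.b.ext fun p => ?_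
    rw [Module.End.mul_apply, Module.End.mul_apply, hN₀, part_apply S.b a 0 N (hZb p), part_b,
      add_zero, add_zero, hom_pj S.b a hZa, ← sub_eq_add_neg]
    congr 1
    exact congrArg (fun T : Module.End K V => T (S.b p)) hNZ
  have hh₁ : ∀ r, ∀ x ∈ G S.b a r, h₁ x = (r : K) • x := by
    intro r x hx
    unfold G at hx
    induction hx using Submodule.span_induction with
    | mem x hx =>
      obtain ⟨p, hp, rfl⟩ := hx
      rw [H₁.wt, ← show a p = r from hp]
    | zero => simp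
    | add x y _ _ hx hy => rw [map_add, hx, hy, smul_add]
    | smul c x _ hx => rw [map_smul, hx, smul_comm]
  have h1N : h₁ * N₀ = N₀ * h₁ := by
    refine S.b.ext fun p => ?_
    rw [Module.End.mul_apply, Module.End.mul_apply, H₁.wt, map_smul,
      hh₁ _ _ (hN₀a _ _ (b_mem_G S.b a p))]
  have h2Z : h₂ * Z = Z * h₂ := by
    refine S.b.ext fun p => ?_
    rw [Module.End.mul_apply, Module.End.mul_apply, H₂.wt, map_smul,
      hh _ _ (hZd _ _ (b_mem_G S.b (fun i => w i - a i) p))]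
  have H := sum_sl2 H₁ H₂ hN₀Z h1N h2Z
  have e0 : (fun i => a i + (w i - a i)) = w := by
    funext i
    ring
  rw [e0] at H
  have hL := Pool.Agent.Y141.MW.stL K V (Z + N₀) _ S.b w (e₁ + e₂) (h₁ + h₂) H
  have hhw : ∀ r, ∀ x ∈ G S.b w r, (h₁ + h₂) x = (r : K) • x := by
    intro r x hx
    unfold G at hx
    induction hx using Submodule.span_induction with
    | mem x hx =>
      obtain ⟨p, hp, rfl⟩ := hx
      rw [H.wt, ← show w p = r from hp]
    | zero => simp
    | add x y _ _ hx hy => rw [map_add, hx, hy, smul_add]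
    | smul c x _ hx => rw [map_smul, hx, smul_comm]
  have hhw' : ∀ (r : ℤ) (x : V), (h₁ + h₂) x = (r : K) • x → x ∈ G S.b w r := by
    intro r x hx
    rw [mem_G]
    intro i hi
    have h1 := Pool.Agent.Y68.MW.repr_h H x i
    rw [hx, map_smul, Finsupp.smul_apply, smul_eq_mul] at h1
    have h2 : ((r : K) - (w i : K)) * S.b.repr x i = 0 := by rw [sub_mul, h1, sub_self]
    rcases mul_eq_zero.1 h2 with h3 | h3
    · exact absurd (by exact_mod_cast (sub_eq_zero.1 h3).symm) hi
    · exact h3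
  have hC0 : Centred U (Z + N₀) := by
    intro m
    refine ⟨fun x hx h => ?_, fun y hy => ?_⟩
    · rw [hUG] at hx
      refine (hL m).1 x ?_ h
      have := hhw _ _ hx
      rwa [Int.cast_natCast] at this
    · rw [hUG] at hy
      have h1 := hhw _ _ hy
      rw [Int.cast_neg, Int.cast_natCast] at h1
      obtain ⟨x, hx, hxy⟩ := (hL m).2 y h1
      refine ⟨x, ?_, hxy⟩
      rw [hUG]
      apply hhw'
      rwa [Int.cast_natCast]
  -- the deformation
  obtain ⟨B, hB⟩ : ∃ B : ℕ, ∀ i, |a i| ≤ (B : ℤ) := by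
    refine ⟨(∑ i, |a i|).toNat, fun i => ?_⟩
    have h1 : |a i| ≤ ∑ i, |a i| :=
      Finset.single_le_sum (f := fun i => |a i|) (fun j _ => abs_nonneg _) (Finset.mem_univ i)
    exact h1.trans (Int.self_le_toNat _)
  obtain ⟨F, hF⟩ : ∃ F : K → Module.End K V, F = fun u => Z + ∑ k ∈ Finset.range (2 * B + 1),
      u ^ k • part S.b a (-(k : ℤ)) N := ⟨_, rfl⟩
  have hF0 : F 0 = Z + N₀ := by
    rw [hF]
    simp only
    rw [Finset.sum_eq_single 0]
    · rw [pow_zero, one_smul, hN₀]
      simp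
    · intro k _ hk
      rw [zero_pow hk, zero_smul]
    · intro h
      exact absurd (Finset.mem_range.2 (by omega)) h
  have hFp : PolyFam (2 * B + 1) F := by
    rw [hF]
    refine ((PolyFam.const Z).mono (Nat.zero_le _)).add (PolyFam.sum _ fun k hk => ?_)
    have h1 := (PolyFam.const (K := K) (V := V) (W := V) (part S.b a (-(k : ℤ)) N)).pow_smul k
    rw [Nat.zero_add] at h1
    exact h1.mono (Finset.mem_range.1 hk).le
  have hbad : ∀ m : ℕ, ∃ T : Finset K, ∀ u ∉ T, ∀ x ∈ U (m : ℤ), ((F u) ^ m) x = 0 → x = 0 := by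
    intro m
    have h1 : PolyFam (m * (2 * B + 1)) (fun u : K => ((F u) ^ m) ∘ₗ (U (m : ℤ)).subtype) :=
      (hFp.pow m).comp_const _
    have h2 : Function.Injective (((F 0) ^ m) ∘ₗ (U (m : ℤ)).subtype) := by
      rw [injective_iff_map_eq_zero]
      rintro ⟨x, hx⟩ h
      rw [hF0] at h
      exact Subtype.ext ((hC0 m).1 x hx h)
    obtain ⟨T, -, hT'⟩ := h1.finite_bad 0 h2
    refine ⟨T, fun c hc x hx h => ?_⟩
    have h3 := (injective_iff_map_eq_zero _).1 (hT' c hc) ⟨x, hx⟩ h
    exact congrArg Subtype.val h3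
  choose T hT using hbad
  obtain ⟨D, hD⟩ : ∃ D : ℕ, ∀ m : ℕ, D ≤ m → ∀ x ∈ U (m : ℤ), x = 0 := by
    refine ⟨(∑ i, |w i|).toNat + 1, fun m hm x hx => ?_⟩
    rw [hUG, mem_G] at hx
    apply S.b.repr.injective
    ext i
    rw [map_zero, Finsupp.zero_apply]
    apply hx
    have h1 : |w i| ≤ ∑ i, |w i| :=
      Finset.single_le_sum (f := fun i => |w i|) (fun j _ => abs_nonneg _) (Finset.mem_univ i)
    have h2 := le_abs_self (w i)
    have h3 := Int.self_le_toNat (∑ i, |w i|)
    omega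
  obtain ⟨u, hu⟩ := Infinite.exists_notMem_finset (insert 0 ((Finset.range D).biUnion T))
  rw [Finset.mem_insert, not_or] at hu
  obtain ⟨hu0, huT⟩ := hu
  -- the torus
  obtain ⟨L, hL'⟩ : ∃ L : Module.End K V, ∀ r, ∀ x ∈ G S.b a r, L x = u⁻¹ ^ r • x := by
    refine ⟨S.b.constr K fun i => u⁻¹ ^ (a i) • S.b i, fun r x hx => ?_⟩
    unfold G at hx
    induction hx using Submodule.span_induction with
    | mem x hx =>
      obtain ⟨p, hp, rfl⟩ := hx
      rw [Basis.constr_basis, show a p = r from hp]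
    | zero => simp
    | add x y _ _ hx hy => rw [map_add, hx, hy, smul_add]
    | smul c x _ hx => rw [map_smul, hx, smul_comm]
  have hui : u⁻¹ ≠ 0 := inv_ne_zero hu0
  have hLb : ∀ p, L (S.b p) = u⁻¹ ^ (a p) • S.b p := fun p => hL' _ _ (b_mem_G S.b a p)
  have hLinj : ∀ x, L x = 0 → x = 0 := by
    intro x hx
    have h1 : ∀ i, S.b.repr (L x) i = u⁻¹ ^ (a i) * S.b.repr x i := by
      intro i
      conv_lhs => rw [← S.b.sum_repr x]
      rw [map_sum]
      have h2 : ∀ j, L (S.b.repr x j • S.b j) = (u⁻¹ ^ (a j) * S.b.repr x j) • S.b j := by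
        intro j
        rw [map_smul, hLb, smul_smul, mul_comm]
      rw [Finset.sum_congr rfl fun j _ => h2 j, Basis.repr_sum_self]
    apply S.b.repr.injective
    ext i
    rw [map_zero, Finsupp.zero_apply]
    have h3 := h1 i
    rw [hx, map_zero, Finsupp.zero_apply] at h3
    rcases mul_eq_zero.1 h3.symm with h4 | h4
    · exact absurd h4 (zpow_ne_zero _ hui)
    · exact h4
  have hLU : ∀ r, ∀ x ∈ U r, L x ∈ U r := by
    intro r x hx
    rw [hUG] at hx ⊢
    unfold G at hx
    induction hx using Submodule.span_induction with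
    | mem x hx =>
      obtain ⟨p, hp, rfl⟩ := hx
      rw [hLb]
      exact Submodule.smul_mem _ _ (Submodule.subset_span ⟨p, hp, rfl⟩)
    | zero => rw [map_zero]; exact zero_mem _
    | add x y _ _ hx hy => rw [map_add]; exact add_mem hx hy
    | smul c x _ hx => rw [map_smul]; exact Submodule.smul_mem _ _ hx
  have hLF : L * (N + (u⁻¹ ^ 2) • Z) = F u * L := by
    refine S.b.ext fun p => ?_
    rw [Module.End.mul_apply, Module.End.mul_apply, hLb, LinearMap.add_apply, map_add,
      LinearMap.smul_apply, map_smul, map_smul, hL' _ _ (hZb p), smul_smul]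
    have h1 : F u (S.b p) = Z (S.b p) + ∑ k ∈ Finset.range (2 * B + 1),
        u ^ k • pj S.b a (a p - k) (N (S.b p)) := by
      rw [hF]
      simp only [LinearMap.add_apply, LinearMap.sum_apply, LinearMap.smul_apply, part_b,
        ← sub_eq_add_neg]
    have h2 : N (S.b p) = ∑ k ∈ Finset.range (2 * B + 1), pj S.b a (a p - k) (N (S.b p)) := by
      conv_lhs => rw [← sum_part S.b a hNM hB]
      simp only [LinearMap.sum_apply, part_b, ← sub_eq_add_neg]
    rw [h1]
    conv_lhs => rw [h2]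
    rw [map_sum, smul_add, Finset.smul_sum, add_comm]
    congr 1
    · congr 1
      rw [← zpow_natCast, ← zpow_add₀ hui]
      congr 1
      push_cast
      ring
    · refine Finset.sum_congr rfl fun k _ => ?_
      rw [hL' _ _ (pj_mem S.b a _ _), smul_smul]
      congr 1
      rw [zpow_sub₀ hui, zpow_natCast, div_eq_mul_inv, ← inv_pow, inv_inv]
  have hLFp : ∀ (m : ℕ) (x : V), L (((N + (u⁻¹ ^ 2) • Z) ^ m) x) = ((F u) ^ m) (L x) := by
    intro m
    induction m with
    | zero => intro x; simp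
    | succ m ih =>
      intro x
      rw [pow_succ (N + (u⁻¹ ^ 2) • Z) m, Module.End.mul_apply, ih, pow_succ (F u) m,
        Module.End.mul_apply]
      congr 1
      exact congrArg (fun T : Module.End K V => T x) hLF
  refine ⟨u⁻¹ ^ 2, fun m => ?_⟩
  have hinj' : ∀ x ∈ U (m : ℤ), ((N + (u⁻¹ ^ 2) • Z) ^ m) x = 0 → x = 0 := by
    intro x hx h
    by_cases hm : m < D
    · apply hLinj
      refine hT m u (fun h1 => huT ?_) (L x) (hLU _ _ hx) ?_
      · exact Finset.mem_biUnion.2 ⟨m, Finset.mem_range.2 hm, h1⟩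
      · rw [← hLFp, h, map_zero]
    · exact hD m (by omega) x hx
  have hlow1 : ∀ r, ∀ x ∈ U r, (Z + N₀) x ∈ U (r - 2) := by
    intro r x hx
    refine add_mem (hZ r x hx) ?_
    rw [hUG] at hx ⊢
    have := hN₀w r x hx
    rwa [← sub_eq_add_neg] at this
  refine ⟨hinj', surj_of_inj ?_ hinj' (finrank_eq_of_centred hlow1 hC0 m)⟩
  intro x hx
  have h1 : ∀ r, ∀ x ∈ U r, (N + (u⁻¹ ^ 2) • Z) x ∈ U (r - 2) := fun r x hx =>
    add_mem (hN r x hx) (Submodule.smul_mem _ _ (hZ r x hx))
  have := pow_low h1 m _ hx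
  rwa [show (m : ℤ) - 2 * m = -m by ring] at this

end Pool.Agent.W2helper36.WM
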