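import Pool.Agent.W2helper36.WM.Wts
import Pool.Agent.W2helper36.WM.Defs

/-!
# Powers of the Frobenius and unipotent modifications
-/

set_option autoImplicit false
set_option linter.unusedSectionVars false

open Module

namespace Pool.Agent.W2helper36.WM

open Pool.Agent.Y143 Pool.Agent.Y163.MW Pool.Agent.N184.HK Pool.Agent.N184.HK.P_FRM

variable {Ω : Type} [Field Ω] [CharZero Ω] {V : Type} [AddCommGroup V] [Module Ω V] {q : ℕ}

/-- Powers of Weil numbers. -/
lemma weil_pow (hq : 1 < q) {w : ℤ} {α : Ω} (h : IsWeilNumber q w α) (f : ℕ) :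
    IsWeilNumber (q ^ f) w (α ^ f) := by
  have hq0 : (0 : ℝ) < q := by exact_mod_cast (by omega : 0 < q)
  refine ⟨h.1.pow f, fun z hz => ?_⟩
  -- a conjugate of `α ^ f` is the power of a conjugate of `α`
  obtain ⟨y, hy, hyz⟩ : ∃ y : ℂ, Polynomial.aeval y (minpoly ℚ α) = 0 ∧ y ^ f = z := by
    have hint : IsIntegral ℚ α := h.1.isIntegral
    let E := IntermediateField.adjoin ℚ ({α} : Set Ω)
    let a : E := IntermediateField.AdjoinSimple.gen ℚ α
    have ha : (a : Ω) = α := IntermediateField.AdjoinSimple.coe_gen ℚ α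
    have hfin : FiniteDimensional ℚ E := IntermediateField.adjoin.finiteDimensional hint
    have halg : Algebra.IsAlgebraic ℚ E := Algebra.IsAlgebraic.of_finite ℚ E
    have h1 : minpoly ℚ (a ^ f) = minpoly ℚ (α ^ f) := by
      have := (minpoly.algebraMap_eq (A := ℚ) (B := E) (B' := Ω) (algebraMap E Ω).injective (a ^ f))
      rw [← this, map_pow]
      congr 2
    have h2 : Polynomial.aeval z (minpoly ℚ (a ^ f)) = 0 := by rw [h1]; exact hz
    have hint' : IsIntegral ℚ (a ^ f) := (halg.isAlgebraic (a ^ f)).isIntegral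
    let F := IntermediateField.adjoin ℚ ({a ^ f} : Set E)
    have hroot : z ∈ (minpoly ℚ (a ^ f)).aroots ℂ := by
      rw [Polynomial.mem_aroots]
      exact ⟨minpoly.ne_zero hint', h2⟩
    let ψ : F →ₐ[ℚ] ℂ := (IntermediateField.algHomAdjoinIntegralEquiv ℚ hint').symm ⟨z, hroot⟩
    have hψ : ψ (IntermediateField.AdjoinSimple.gen ℚ (a ^ f)) = z :=
      IntermediateField.algHomAdjoinIntegralEquiv_symm_apply_gen ℚ hint' ⟨z, hroot⟩
    let _ : Algebra F ℂ := ψ.toRingHom.toAlgebra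
    have hst : IsScalarTower ℚ F ℂ := IsScalarTower.of_algebraMap_eq (fun x => (ψ.commutes x).symm)
    have halgF : Algebra.IsAlgebraic F E := Algebra.IsAlgebraic.tower_top (K := ℚ) F
    let Ψ : E →ₐ[F] ℂ := IsAlgClosed.lift
    refine ⟨Ψ a, ?_, ?_⟩
    · have h3 : minpoly ℚ α = minpoly ℚ a := by
        have := (minpoly.algebraMap_eq (A := ℚ) (B := E) (B' := Ω) (algebraMap E Ω).injective a)
        rw [← this]
        congr 1
      rw [h3]
      have h4 : Polynomial.aeval ((Ψ.restrictScalars ℚ) a) (minpoly ℚ a) = 0 := by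
        rw [Polynomial.aeval_algHom_apply, minpoly.aeval, map_zero]
      exact h4
    · rw [← map_pow]
      have h5 : a ^ f = algebraMap F E (IntermediateField.AdjoinSimple.gen ℚ (a ^ f)) :=
        (IntermediateField.AdjoinSimple.algebraMap_gen ℚ (a ^ f)).symm
      rw [h5, AlgHom.commutes]
      exact hψ
  rw [← hyz, norm_pow, h.2 y hy, Nat.cast_pow, ← Real.rpow_natCast, ← Real.rpow_natCast,
    ← Real.rpow_mul hq0.le, ← Real.rpow_mul hq0.le, mul_comm]

/-- Scaling the nilpotent operator does not change the monodromy filtration. -/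
lemma monodromy_smul {N : Module.End Ω V} {M : ℤ → Submodule Ω V} (h : IsMonodromyFiltration N M)
    {e : Ω} (he : e ≠ 0) : IsMonodromyFiltration (e • N) M := by
  refine ⟨h.mono, h.bot, h.top, fun a x hx => Submodule.smul_mem _ _ (h.map a x hx), ?_, ?_⟩
  · intro a x hx h1
    refine h.inj a x hx ?_
    rw [smul_pow, LinearMap.smul_apply] at h1
    exact (Submodule.smul_mem_iff _ (pow_ne_zero _ he)).1 h1
  · intro a y hy
    obtain ⟨x, hx, hxy⟩ := h.surj a y hy
    refine ⟨(e ^ a)⁻¹ • x, Submodule.smul_mem _ _ hx, ?_⟩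
    rw [smul_pow, LinearMap.smul_apply, map_smul, smul_smul, mul_inv_cancel₀ (pow_ne_zero _ he),
      one_smul]
    exact hxy

/-- Eigenvalues of powers, modulo a stable subspace. -/
lemma eigen_pow [IsAlgClosed Ω] {Φ : Module.End Ω V} {A B : Submodule Ω V}
    (hA : ∀ x ∈ A, Φ x ∈ A) {f : ℕ} (hf : 1 ≤ f) {α : Ω} {x : V}
    (hx : x ∈ A) (hxB : x ∉ B) (h : (Φ ^ f) x - α • x ∈ B) :
    ∃ β : Ω, β ^ f = α ∧ ∃ y ∈ A, y ∉ B ∧ Φ y - β • y ∈ B := by
  classical
  obtain ⟨P, hP⟩ : ∃ P : Polynomial Ω, P = Polynomial.X ^ f - Polynomial.C α := ⟨_, rfl⟩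
  have hPm : P.Monic := by
    rw [hP]
    exact Polynomial.monic_X_pow_sub_C α (by omega)
  have hsplit : P = (P.roots.map fun β => Polynomial.X - Polynomial.C β).prod := by
    exact (IsAlgClosed.splits P).eq_prod_roots_of_monic hPm
  have hroots : ∀ β ∈ P.roots, β ^ f = α := by
    intro β hβ
    have h1 := (Polynomial.mem_roots'.1 hβ).2
    rw [hP, Polynomial.IsRoot.def] at h1
    simpa [sub_eq_zero] using h1
  have key : ∀ s : Multiset Ω, (∀ β ∈ s, β ^ f = α) → ∀ z ∈ A, z ∉ B →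
      Polynomial.aeval Φ (s.map fun β => Polynomial.X - Polynomial.C β).prod z ∈ B →
      ∃ β : Ω, β ^ f = α ∧ ∃ y ∈ A, y ∉ B ∧ Φ y - β • y ∈ B := by
    intro s
    induction s using Multiset.induction_on with
    | empty =>
      intro _ z _ hzB h1
      simp only [Multiset.map_zero, Multiset.prod_zero, map_one, Module.End.one_apply] at h1
      exact absurd h1 hzB
    | cons β s ih =>
      intro hs z hzA hzB h1
      rw [Multiset.map_cons, Multiset.prod_cons, mul_comm, map_mul, Module.End.mul_apply] at h1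
      have h2 : Polynomial.aeval Φ (Polynomial.X - Polynomial.C β : Polynomial Ω) z =
          Φ z - β • z := by
        simp [Module.algebraMap_end_apply]
      rw [h2] at h1
      by_cases h3 : Φ z - β • z ∈ B
      · exact ⟨β, hs β (Multiset.mem_cons_self β s), z, hzA, hzB, h3⟩
      · exact ih (fun β' hβ' => hs β' (Multiset.mem_cons_of_mem hβ')) _
          (sub_mem (hA z hzA) (Submodule.smul_mem _ _ hzA)) h3 h1
  refine key P.roots hroots x hx hxB ?_
  rw [← hsplit, hP]
  simpa [Module.algebraMap_end_apply] using h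

/-- **Finite extensions.** -/
theorem pure_pow [IsAlgClosed Ω] (hq : 1 < q) {i : ℤ} {Φ N : Module.End Ω V}
    (h : IsMWPure q i Φ N) {e : Ω} (he : e ≠ 0) {f : ℕ} (hf : 1 ≤ f) :
    IsMWPure (q ^ f) i (Φ ^ f) (e • N) := by
  obtain ⟨M, hM, hst, hp⟩ := h
  refine ⟨M, monodromy_smul hM he, ?_, ?_⟩
  · intro a x hx
    have : ∀ k : ℕ, (Φ ^ k) x ∈ M a := by
      intro k
      induction k with
      | zero => simpa using hx
      | succ k ih =>
        rw [pow_succ', Module.End.mul_apply]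
        exact hst a _ ih
    exact this f
  · intro a α x hx hx' h1
    obtain ⟨β, hβ, y, hy, hy', h2⟩ := eigen_pow (hst a) hf hx hx' h1
    rw [← hβ]
    exact weil_pow hq (hp a β y hy hy' h2) f

lemma allWeil_of_pure {i : ℤ} {Φ N : Module.End Ω V} (h : IsMWPure q i Φ N) : AllWeil q Φ := by
  obtain ⟨M, hM, hst, hp⟩ := h
  intro α x hx0 hx
  obtain ⟨a, ha⟩ := hM.bot
  obtain ⟨t, ht⟩ := hM.top
  have h1 : ¬ x ∈ M a := by rw [ha, Submodule.mem_bot]; exact hx0
  have h2 : x ∈ M t := by rw [ht]; trivial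
  have hat : a ≤ t := by
    by_contra hcon
    exact h1 (hM.mono (by omega) h2)
  obtain ⟨c, _, _, h3, h4⟩ := step (fun a => x ∈ M a) h1 hat h2
  exact ⟨c + i, hp c α x h3 h4 (by rw [hx, sub_self]; exact zero_mem _)⟩

/-- Operators which are equivariant up to `q` lower the filtration. -/
lemma low_of_pure [IsAlgClosed Ω] [FiniteDimensional Ω V] (hq : 1 < q) {i : ℤ}
    {Φ N A : Module.End Ω V} {M : ℤ → Submodule Ω V} (hM : IsMonodromyFiltration N M)
    (hst : ∀ a x, x ∈ M a → Φ x ∈ M a)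
    (hp : ∀ (a : ℤ) (α : Ω) (x : V), x ∈ M a → x ∉ M (a - 1) → Φ x - α • x ∈ M (a - 1) →
      IsWeilNumber q (a + i) α) (hA : ∀ x, A (Φ x) = (q : Ω) • Φ (A x)) :
    ∀ b, ∀ x ∈ M b, A x ∈ M (b - 1) := by
  have hW : AllWeil q Φ := allWeil_of_pure ⟨M, hM, hst, hp⟩
  have hle := fun b => WS_le hq hM.mono hM.top hp b
  have hbot := fun b => inf_eq_bot hq hM.mono hM.bot hst hp b
  intro b x hx
  have h1 : M b = ⨆ μ, M b ⊓ Φ.genEigenspace μ ⊤ :=
    Submodule.eq_iSup_inf_genEigenspace ⊤ (hst b) (End.iSup_maxGenEigenspace_eq_top Φ)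
  have h2 : (⨆ μ, M b ⊓ Φ.genEigenspace μ ⊤) ≤ (M (b - 1)).comap A := by
    refine iSup_le fun μ => ?_
    rintro y ⟨hy, hyμ⟩
    by_cases hy0 : y = 0
    · rw [hy0]; exact zero_mem _
    obtain ⟨w, hw⟩ := gen_weil hW hyμ hy0
    have hyw : y ∈ ES Φ (WW Ω q (i + (w - i))) := by
      rw [show i + (w - i) = w by ring]
      exact le_ES Φ (S := WW Ω q w) hw hyμ
    have hwb : w - i ≤ b := by
      by_contra hcon
      have h3 : y ∈ M (w - i - 1) ⊓ ES Φ (WW Ω q (i + (w - i))) :=
        ⟨hM.mono (by omega) hy, hyw⟩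
      rw [hbot, Submodule.mem_bot] at h3
      exact hy0 h3
    have h4 := map_WS hq (Φ' := Φ) 1 (fun x => by rw [zpow_one]; exact hA x) hyw
    have h5 : A y ∈ M (w - i - 2) := by
      apply hle
      rw [show i + (w - i - 2) = i + (w - i) - 2 * 1 by ring]
      exact h4
    exact hM.mono (by omega) h5
  rw [h1] at hx
  exact h2 hx

lemma expo_of_low {A : Module.End Ω V} {M : ℤ → Submodule Ω V} (hM : Monotone M)
    (hlow : ∀ b, ∀ x ∈ M b, A x ∈ M (b - 1)) : ∀ b, ∀ x ∈ M b, expo A x - x ∈ M (b - 1) := by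
  have hlow' : ∀ (k : ℕ) (b : ℤ), ∀ x ∈ M b, (A ^ (k + 1)) x ∈ M (b - 1) := by
    intro k
    induction k with
    | zero => intro b x hx; simpa using hlow b x hx
    | succ k ih =>
      intro b x hx
      rw [pow_succ, Module.End.mul_apply]
      exact hM (by omega) (ih _ _ (hlow b x hx))
  intro b x hx
  unfold expo
  rw [Finset.sum_range_succ', LinearMap.add_apply, LinearMap.sum_apply]
  simp only [Nat.factorial_zero, Nat.cast_one, inv_one, one_smul, pow_zero,
    Module.End.one_apply, add_sub_cancel_right]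
  refine Submodule.sum_mem _ fun k _ => ?_
  rw [LinearMap.smul_apply]
  exact Submodule.smul_mem _ _ (hlow' k b x hx)

/-- **Unipotent modifications of the Frobenius.** -/
theorem pure_unip [IsAlgClosed Ω] [FiniteDimensional Ω V] (hq : 1 < q) {i : ℤ}
    {Φ N A : Module.End Ω V} (h : IsMWPure q i Φ N) (hA : ∀ x, A (Φ x) = (q : Ω) • Φ (A x)) :
    IsMWPure q i (expo A * Φ) N := by
  obtain ⟨M, hM, hst, hp⟩ := h
  have hexp := expo_of_low hM.mono (low_of_pure hq hM hst hp hA)
  refine ⟨M, hM, ?_, ?_⟩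
  · intro a x hx
    rw [Module.End.mul_apply]
    have h1 := hexp a _ (hst a x hx)
    have h2 := add_mem (hM.mono (by omega : a - 1 ≤ a) h1) (hst a x hx)
    rwa [sub_add_cancel] at h2
  · intro a α x hx hx' h1
    refine hp a α x hx hx' ?_
    rw [Module.End.mul_apply] at h1
    have h2 := hexp a _ (hst a x hx)
    have h3 := sub_mem h1 h2
    convert h3 using 1
    abel

/-- Roots of Weil numbers. -/
lemma weil_root (hq : 1 < q) {w : ℤ} {α : Ω} {f : ℕ} (hf : 1 ≤ f)
    (h : IsWeilNumber (q ^ f) w (α ^ f)) : IsWeilNumber q w α := by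
  have hq0 : (0 : ℝ) < q := by exact_mod_cast (by omega : 0 < q)
  refine ⟨h.1.of_pow hf, fun z hz => ?_⟩
  have h1 : minpoly ℚ α ∣ (minpoly ℚ (α ^ f)).comp (Polynomial.X ^ f) := by
    refine minpoly.dvd ℚ _ ?_
    rw [Polynomial.aeval_comp]
    simp
  obtain ⟨r, hr⟩ := h1
  have h2 : Polynomial.aeval z ((minpoly ℚ (α ^ f)).comp (Polynomial.X ^ f)) = 0 := by
    rw [hr, map_mul, hz, zero_mul]
  rw [Polynomial.aeval_comp] at h2
  simp only [map_pow, Polynomial.aeval_X] at h2
  have h3 := h.2 _ h2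
  rw [norm_pow, Nat.cast_pow, ← Real.rpow_natCast, ← Real.rpow_natCast,
    ← Real.rpow_mul hq0.le] at h3
  have h4 : ((q : ℝ) ^ ((w : ℝ) / 2)) ^ (f : ℝ) = (q : ℝ) ^ ((f : ℝ) * ((w : ℝ) / 2)) := by
    rw [← Real.rpow_mul hq0.le, mul_comm]
  rw [← h4] at h3
  have hf' : (f : ℝ) ≠ 0 := by exact_mod_cast (by omega : f ≠ 0)
  exact (Real.rpow_left_inj (norm_nonneg z) (Real.rpow_nonneg hq0.le _) hf').1 h3

/-- **Descent from one member of the family.** -/
theorem pure_down [IsAlgClosed Ω] [FiniteDimensional Ω V] (hq : 1 < q) {i : ℤ}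
    {Φ N A : Module.End Ω V} {e : Ω} (he : e ≠ 0) {f : ℕ} (hf : 1 ≤ f)
    (hN : ∀ x, N (Φ x) = (q : Ω) • Φ (N x)) (hA : ∀ x, A (Φ x) = (q : Ω) • Φ (A x))
    (h : IsMWPure (q ^ f) i (expo A * Φ ^ f) (e • N)) : IsMWPure q i Φ N := by
  have hq' : 1 < q ^ f := Nat.one_lt_pow (by omega) hq
  have hqΩ : (q : Ω) ≠ 0 := by exact_mod_cast (by omega : q ≠ 0)
  obtain ⟨M, hM, hst, hp⟩ := h
  have hM' : IsMonodromyFiltration N M := by
    have := monodromy_smul hM (inv_ne_zero he)
    rwa [smul_smul, inv_mul_cancel₀ he, one_smul] at this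
  have hstΦ : ∀ a x, x ∈ M a → Φ x ∈ M a := fun a x hx =>
    hM'.on.functorial hM'.on Φ (fun _ _ => trivial) hqΩ (fun x _ => hN x) a hx
  have hApow : ∀ (k : ℕ) (x : V), A ((Φ ^ k) x) = ((q ^ k : ℕ) : Ω) • (Φ ^ k) (A x) := by
    intro k
    induction k with
    | zero => intro x; simp
    | succ k ih =>
      intro x
      rw [pow_succ', Module.End.mul_apply, hA, ih, map_smul, smul_smul, Module.End.mul_apply]
      congr 1
      push_cast
      ring
  have hAcomm : ∀ x, A (expo A x) = expo A (A x) := by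
    intro x
    have : Commute A (expo A) := by
      unfold expo
      exact Commute.sum_right _ _ _ fun k _ => ((Commute.refl A).pow_right k).smul_right _
    exact LinearMap.congr_fun this x
  have hA' : ∀ x, A ((expo A * Φ ^ f) x) = ((q ^ f : ℕ) : Ω) • (expo A * Φ ^ f) (A x) := by
    intro x
    rw [Module.End.mul_apply, hAcomm, hApow, map_smul, Module.End.mul_apply]
  have hexp := expo_of_low hM.mono (low_of_pure hq' hM hst hp hA')
  have hpow : ∀ (k : ℕ) (a : ℤ) (x : V), x ∈ M a → (Φ ^ k) x ∈ M a := by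
    intro k
    induction k with
    | zero => intro a x hx; simpa using hx
    | succ k ih =>
      intro a x hx
      rw [pow_succ', Module.End.mul_apply]
      exact hstΦ a _ (ih a x hx)
  refine ⟨M, hM', hstΦ, fun a α x hx hx' h1 => ?_⟩
  refine weil_root hq hf (hp a (α ^ f) x hx hx' ?_)
  have h2 : ∀ k : ℕ, (Φ ^ k) x - α ^ k • x ∈ M (a - 1) := by
    intro k
    induction k with
    | zero => simp
    | succ k ih =>
      have h3 : (Φ ^ (k + 1)) x - α ^ (k + 1) • x =
          Φ ((Φ ^ k) x - α ^ k • x) + α ^ k • (Φ x - α • x) := by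
        rw [pow_succ', Module.End.mul_apply, map_sub, map_smul, smul_sub, smul_smul, ← pow_succ]
        abel
      rw [h3]
      exact add_mem (hstΦ _ _ ih) (Submodule.smul_mem _ _ h1)
  have h4 : (expo A * Φ ^ f) x - α ^ f • x =
      (expo A ((Φ ^ f) x) - (Φ ^ f) x) + ((Φ ^ f) x - α ^ f • x) := by
    rw [Module.End.mul_apply]
    abel
  rw [h4]
  exact add_mem (hexp a _ (hpow f a x hx)) (h2 f)

end Pool.Agent.W2helper36.WM
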