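import Pool.Agent.N184.HK.P_FRM
import Pool.Agent.N184.HK.P_TOM
import Pool.Agent.Y143.Pure
import Pool.Agent.Y48.MW.G
import Pool.Agent.W2helper36.WM.Lead

/-!
# Weights and equivariant maps
-/

set_option autoImplicit false
set_option linter.unusedSectionVars false

open Module

namespace Pool.Agent.W2helper36.WM

open Pool.Agent.Y143 Pool.Agent.Y163.MW Pool.Agent.N184.HK Pool.Agent.N184.HK.P_FRM

section

variable {Ω : Type} [Field Ω] {V V' : Type} [AddCommGroup V] [Module Ω V]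
  [AddCommGroup V'] [Module Ω V']

/-- Maps which are equivariant up to a scalar map generalized eigenspaces to generalized
eigenspaces. -/
lemma map_gen {Φ : Module.End Ω V} {Φ' : Module.End Ω V'} {f : V →ₗ[Ω] V'} {β : Ω} (hβ : β ≠ 0)
    (h : ∀ x, f (Φ x) = β • Φ' (f x)) {α : Ω} {x : V} (hx : x ∈ Φ.maxGenEigenspace α) :
    f x ∈ Φ'.maxGenEigenspace (α / β) := by
  rw [End.mem_maxGenEigenspace] at hx ⊢
  obtain ⟨k, hk⟩ := hx
  refine ⟨k, ?_⟩
  have h1 : ∀ y, (Φ' - (α / β) • (1 : Module.End Ω V')) (f y) =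
      β⁻¹ • f ((Φ - α • (1 : Module.End Ω V)) y) := by
    intro y
    simp only [LinearMap.sub_apply, LinearMap.smul_apply, Module.End.one_apply, map_sub, map_smul]
    rw [h y, smul_sub, smul_smul, inv_mul_cancel₀ hβ, one_smul, smul_smul]
    congr 2
    rw [div_eq_mul_inv, mul_comm]
  have h3 : ∀ (k : ℕ) (y : V), ((Φ' - (α / β) • (1 : Module.End Ω V')) ^ k) (f y) =
      (β⁻¹) ^ k • f (((Φ - α • (1 : Module.End Ω V)) ^ k) y) := by
    intro k
    induction k with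
    | zero => intro y; simp
    | succ k ih =>
      intro y
      rw [pow_succ, Module.End.mul_apply, h1, map_smul, ih, smul_smul, pow_succ β⁻¹ k,
        mul_comm, pow_succ, Module.End.mul_apply]
  rw [h3, hk, map_zero, smul_zero]

lemma map_ES {Φ : Module.End Ω V} {Φ' : Module.End Ω V'} {f : V →ₗ[Ω] V'}
    (h : ∀ x, f (Φ x) = Φ' (f x)) {S : Set Ω} {x : V} (hx : x ∈ ES Φ S) : f x ∈ ES Φ' S := by
  have h1 : ES Φ S ≤ (ES Φ' S).comap f := ES_le Φ fun e he x hx => by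
    have h2 := map_gen (Φ' := Φ') (f := f) (β := 1) one_ne_zero
      (fun x => by rw [one_smul]; exact h x) hx
    rw [div_one] at h2
    exact le_ES Φ' he h2
  exact h1 hx

/-- A stable relation splits. -/
lemma rel_split [IsAlgClosed Ω] [FiniteDimensional Ω V] [FiniteDimensional Ω V']
    {Φ : Module.End Ω V} {Φ' : Module.End Ω V'} {R : Submodule Ω (V × V')}
    (hR : ∀ x y, (x, y) ∈ R → (Φ x, Φ' y) ∈ R) (S : Set Ω) {x : V} {y : V'} (hxy : (x, y) ∈ R) :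
    ∃ x₁ ∈ ES Φ S, ∃ x₂ ∈ ES Φ Sᶜ, ∃ y₁ ∈ ES Φ' S, ∃ y₂ ∈ ES Φ' Sᶜ, x₁ + x₂ = x ∧ y₁ + y₂ = y ∧
      (x₁, y₁) ∈ R ∧ (x₂, y₂) ∈ R := by
  obtain ⟨⟨x₁, y₁⟩, h1, ⟨x₂, y₂⟩, h2, h3⟩ := decomp (LinearMap.prodMap Φ Φ') S R
    (fun p hp => hR p.1 p.2 hp) hxy
  refine ⟨x₁, ?_, x₂, ?_, y₁, ?_, y₂, ?_, congrArg Prod.fst h3, congrArg Prod.snd h3, h1.1, h2.1⟩
  · exact map_ES (Φ := LinearMap.prodMap Φ Φ') (Φ' := Φ) (f := LinearMap.fst Ω V V')
      (fun _ => rfl) h1.2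
  · exact map_ES (Φ := LinearMap.prodMap Φ Φ') (Φ' := Φ) (f := LinearMap.fst Ω V V')
      (fun _ => rfl) h2.2
  · exact map_ES (Φ := LinearMap.prodMap Φ Φ') (Φ' := Φ') (f := LinearMap.snd Ω V V')
      (fun _ => rfl) h1.2
  · exact map_ES (Φ := LinearMap.prodMap Φ Φ') (Φ' := Φ') (f := LinearMap.snd Ω V V')
      (fun _ => rfl) h2.2

lemma ES_unique {Φ : Module.End Ω V} {S : Set Ω} {x x₁ x₂ : V} (hx : x ∈ ES Φ S)
    (h₁ : x₁ ∈ ES Φ S) (h₂ : x₂ ∈ ES Φ Sᶜ) (h : x₁ + x₂ = x) : x₁ = x ∧ x₂ = 0 := by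
  have h3 : x₂ ∈ ES Φ S := by
    have : x₂ = x - x₁ := by rw [← h]; abel
    rw [this]
    exact sub_mem hx h₁
  have h4 := (ES_disjoint Φ (disjoint_compl_right (a := S))).le_bot ⟨h3, h₂⟩
  rw [Submodule.mem_bot] at h4
  rw [h4, add_zero] at h
  exact ⟨h, h4⟩

/-- The first member of the relation determines the weight of the second. -/
lemma rel_right [IsAlgClosed Ω] [FiniteDimensional Ω V] [FiniteDimensional Ω V']
    {Φ : Module.End Ω V} {Φ' : Module.End Ω V'} {R : Submodule Ω (V × V')}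
    (hR : ∀ x y, (x, y) ∈ R → (Φ x, Φ' y) ∈ R) {S : Set Ω} {x : V} {y : V'} (hxy : (x, y) ∈ R)
    (hx : x ∈ ES Φ S) : ∃ y' ∈ ES Φ' S, (x, y') ∈ R := by
  obtain ⟨x₁, h1, x₂, h2, y₁, h3, y₂, h4, h5, -, h6, -⟩ := rel_split hR S hxy
  rw [← (ES_unique hx h1 h2 h5).1]
  exact ⟨y₁, h3, h6⟩

lemma rel_left [IsAlgClosed Ω] [FiniteDimensional Ω V] [FiniteDimensional Ω V']
    {Φ : Module.End Ω V} {Φ' : Module.End Ω V'} {R : Submodule Ω (V × V')}
    (hR : ∀ x y, (x, y) ∈ R → (Φ x, Φ' y) ∈ R) {S : Set Ω} {x : V} {y : V'} (hxy : (x, y) ∈ R)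
    (hy : y ∈ ES Φ' S) : ∃ x' ∈ ES Φ S, (x', y) ∈ R := by
  obtain ⟨x₁, h1, x₂, h2, y₁, h3, y₂, h4, -, h5, h6, -⟩ := rel_split hR S hxy
  rw [(ES_unique hy h3 h4 h5).1] at h6
  exact ⟨x₁, h1, h6⟩

end

section

variable {Ω : Type} [Field Ω] [CharZero Ω] {V V' : Type} [AddCommGroup V] [Module Ω V]
  [AddCommGroup V'] [Module Ω V'] {q : ℕ}

lemma WS_eq' (Φ : Module.End Ω V) (w : ℤ) : WS q Φ w = ES Φ (WW Ω q w) := rfl

lemma map_WS (hq : 1 < q) {Φ : Module.End Ω V} {Φ' : Module.End Ω V'} {f : V →ₗ[Ω] V'} (k : ℤ)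
    (h : ∀ x, f (Φ x) = (q : Ω) ^ k • Φ' (f x)) {w : ℤ} {x : V} (hx : x ∈ WS q Φ w) :
    f x ∈ WS q Φ' (w - 2 * k) := by
  have hq0 : (q : Ω) ≠ 0 := by exact_mod_cast (by omega : q ≠ 0)
  have h1 : WS q Φ w ≤ (WS q Φ' (w - 2 * k)).comap f := by
    refine ES_le Φ fun e he x hx => ?_
    have h2 := map_gen (zpow_ne_zero k hq0) h hx
    refine le_ES Φ' ?_ h2
    have h3 := (show IsWeilNumber q w e from he).twist (by omega) (-k)
    have h4 : (q : Ω) ^ (-k) * e = e / (q : Ω) ^ k := by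
      rw [zpow_neg, div_eq_mul_inv, mul_comm]
    rw [h4, show w + 2 * -k = w - 2 * k by ring] at h3
    exact h3
  exact h1 hx

/-- All the eigenvalues are Weil numbers of integral weights. -/
def AllWeil (q : ℕ) (Φ : Module.End Ω V) : Prop :=
  ∀ (α : Ω) (x : V), x ≠ 0 → Φ x = α • x → ∃ w : ℤ, IsWeilNumber q w α

lemma gen_weil {Φ : Module.End Ω V} (h : AllWeil q Φ) {α : Ω} {x : V}
    (hx : x ∈ Φ.maxGenEigenspace α) (h0 : x ≠ 0) : ∃ w : ℤ, IsWeilNumber q w α := by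
  obtain ⟨k, hk⟩ := (End.mem_maxGenEigenspace Φ α x).1 hx
  induction k generalizing x with
  | zero => exact absurd (by simpa using hk) h0
  | succ k ih =>
    by_cases h1 : (Φ - α • (1 : Module.End Ω V)) x = 0
    · refine h α x h0 ?_
      simpa [sub_eq_zero] using h1
    · refine ih (x := (Φ - α • (1 : Module.End Ω V)) x) ?_ h1 ?_
      · rw [End.mem_maxGenEigenspace]
        refine ⟨k, ?_⟩
        rw [← Module.End.mul_apply, ← pow_succ]
        exact hk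
      · rw [← Module.End.mul_apply, ← pow_succ]
        exact hk

variable [IsAlgClosed Ω] [FiniteDimensional Ω V]

lemma roots_weil {Φ : Module.End Ω V} (h : AllWeil q Φ) :
    ∀ e ∈ Φ.charpoly.roots, ∃ w : ℤ, IsWeilNumber q w e := by
  intro e he
  have h1 : Φ.HasEigenvalue e := by
    rw [Module.End.hasEigenvalue_iff_isRoot_charpoly]
    exact (Polynomial.mem_roots'.1 he).2
  obtain ⟨x, hx⟩ := h1.exists_hasEigenvector
  exact h e x hx.2 hx.apply_eq_smul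

/-- The decomposition by the weight. -/
lemma internal_WS (hq : 1 < q) {Φ : Module.End Ω V} (h : AllWeil q Φ) (i : ℤ) :
    DirectSum.IsInternal (fun c : ℤ => WS q Φ (i + c)) := by
  classical
  apply DirectSum.isInternal_submodule_of_iSupIndep_of_iSup_eq_top
  · rw [iSupIndep_def]
    intro c
    refine (ES_disjoint Φ (disjoint_compl_right (a := WW Ω q (i + c)))).mono_right ?_
    refine iSup₂_le fun c' hc' => ?_
    refine ES_le Φ fun e he => le_ES Φ ?_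
    intro h1
    have := weight_unique hq (show IsWeilNumber q (i + c) e from h1)
      (show IsWeilNumber q (i + c') e from he)
    exact hc' (by omega)
  · rw [eq_top_iff, ← End.iSup_maxGenEigenspace_eq_top Φ]
    refine iSup_le fun e => ?_
    by_cases h1 : ∃ w : ℤ, IsWeilNumber q w e
    · obtain ⟨w, hw⟩ := h1
      refine le_iSup_of_le (w - i) ?_
      rw [show i + (w - i) = w by ring]
      exact le_ES Φ (S := WW Ω q w) hw
    · intro x hx
      by_cases h0 : x = 0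
      · rw [h0]; exact zero_mem _
      · exact absurd (gen_weil h hx h0) h1

/-- Purity of the members of the pencil. -/
theorem pure_of_centred (hq : 1 < q) {i : ℤ} {Φ N : Module.End Ω V} (h : AllWeil q Φ)
    (hN : ∀ x, N (Φ x) = (q : Ω) • Φ (N x))
    (hC : Centred (fun c : ℤ => WS q Φ (i + c)) N) : IsMWPure q i Φ N := by
  refine t_tom Ω V q hq i Φ N (roots_weil h) hN fun j => ?_
  refine ⟨?_, ?_, ?_⟩
  · intro x hx
    have h1 := N_pow_W hq hN j (i + j) hx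
    rw [show i + (j : ℤ) - 2 * j = i - j by ring] at h1
    exact h1
  · intro x hx y hy hxy
    have h1 := (hC j).1 (x - y) (sub_mem hx hy) (by rw [map_sub]; exact sub_eq_zero.2 hxy)
    exact sub_eq_zero.1 h1
  · intro y hy
    have hy' : y ∈ WS q Φ (i + -(j : ℤ)) := by
      rw [← sub_eq_add_neg]
      exact hy
    obtain ⟨x, hx, hxy⟩ := (hC j).2 y hy'
    exact ⟨x, hx, hxy⟩

theorem centred_of_pure (hq : 1 < q) {i : ℤ} {Φ N : Module.End Ω V} (h : AllWeil q Φ)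
    (hN : ∀ x, N (Φ x) = (q : Ω) • Φ (N x)) (hP : IsMWPure q i Φ N) :
    Centred (fun c : ℤ => WS q Φ (i + c)) N := by
  intro j
  have hB := t_frm Ω V q hq i Φ N (roots_weil h) hN hP j
  refine ⟨fun x hx h0 => ?_, fun y hy => ?_⟩
  · exact hB.injOn hx (zero_mem _) (by rw [h0, map_zero])
  · have hy' : y ∈ (WS q Φ (i - j) : Set V) := by
      have : y ∈ WS q Φ (i + -(j : ℤ)) := hy
      rwa [← sub_eq_add_neg] at this
    obtain ⟨x, hx, hxy⟩ := hB.surjOn hy'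
    exact ⟨x, hx, hxy⟩

omit [IsAlgClosed Ω] [FiniteDimensional Ω V] in
lemma low_WS (hq : 1 < q) {i : ℤ} {Φ N : Module.End Ω V}
    (hN : ∀ x, N (Φ x) = (q : Ω) • Φ (N x)) :
    ∀ r, ∀ x ∈ (fun c : ℤ => WS q Φ (i + c)) r, N x ∈ (fun c : ℤ => WS q Φ (i + c)) (r - 2) := by
  intro r x hx
  have h1 := map_WS hq (Φ' := Φ) 1 (fun x => by rw [zpow_one]; exact hN x) hx
  simp only at h1 ⊢
  rwa [show i + r - 2 * 1 = i + (r - 2) by ring] at h1

/-- **Zero-one law.** If one member of the pencil is mw pure, so are all but finitely many. -/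
theorem pure_generic (hq : 1 < q) {i : ℤ} {Φ N Z : Module.End Ω V} (h : AllWeil q Φ)
    (hN : ∀ x, N (Φ x) = (q : Ω) • Φ (N x)) (hZ : ∀ x, Z (Φ x) = (q : Ω) • Φ (Z x))
    {c₀ : Ω} (h₀ : IsMWPure q i Φ (N + c₀ • Z)) :
    ∃ T : Finset Ω, T.card ≤ finrank Ω V ^ 2 ∧ ∀ c ∉ T, IsMWPure q i Φ (N + c • Z) := by
  have hc : ∀ c : Ω, ∀ x, (N + c • Z) (Φ x) = (q : Ω) • Φ ((N + c • Z) x) := by
    intro c x
    simp only [LinearMap.add_apply, LinearMap.smul_apply, hN, hZ, map_add, map_smul, smul_add]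
    rw [smul_comm]
  obtain ⟨T, hT, hT'⟩ := centred_generic (internal_WS hq h i) (low_WS hq hN) (low_WS hq hZ)
    (centred_of_pure hq h (hc c₀) h₀)
  exact ⟨T, hT, fun c hcT => pure_of_centred hq h (hc c) (hT' c hcT)⟩

/-- **Purity of the generic members of the pencil**, if `N` is pure on the graded pieces of the
monodromy filtration of `Z`. -/
theorem pure_relative (hq : 1 < q) {i : ℤ} {Φ N Z : Module.End Ω V} (h : AllWeil q Φ)
    (hN : ∀ x, N (Φ x) = (q : Ω) • Φ (N x)) (hZ : ∀ x, Z (Φ x) = (q : Ω) • Φ (Z x))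
    (hNZ : N * Z = Z * N) {M : ℤ → Submodule Ω V} (hM : IsMonodromyFiltration Z M)
    (hinj : ∀ (r : ℤ) (s : ℕ), ∀ x ∈ M r, x ∈ WS q Φ (i + r + s) → (N ^ s) x ∈ M (r - 1) →
      x ∈ M (r - 1))
    (hsurj : ∀ (r : ℤ) (s : ℕ), ∀ y ∈ M r, y ∈ WS q Φ (i + r - s) →
      ∃ x ∈ M r, x ∈ WS q Φ (i + r + s) ∧ y - (N ^ s) x ∈ M (r - 1)) :
    ∃ T : Finset Ω, T.card ≤ finrank Ω V ^ 2 ∧ ∀ c ∉ T, IsMWPure q i Φ (N + c • Z) := by
  have hc : ∀ c : Ω, ∀ x, (N + c • Z) (Φ x) = (q : Ω) • Φ ((N + c • Z) x) := by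
    intro c x
    simp only [LinearMap.add_apply, LinearMap.smul_apply, hN, hZ, map_add, map_smul, smul_add]
    rw [smul_comm]
  obtain ⟨c₀, h₀⟩ := exists_centred (internal_WS hq h i) (low_WS hq hN) (low_WS hq hZ) hNZ hM.on
    (fun r s x hx hxw => hinj r s x hx (by
      have : x ∈ WS q Φ (i + (r + s)) := hxw
      rwa [← add_assoc] at this))
    (fun r s y hy hyw => by
      have h1 : y ∈ WS q Φ (i + (r - s)) := hyw
      rw [← add_sub_assoc] at h1
      obtain ⟨x, h2, h3, h4⟩ := hsurj r s y hy h1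
      refine ⟨x, h2, ?_, h4⟩
      rw [add_assoc] at h3
      exact h3)
  exact pure_generic hq h hN hZ (pure_of_centred hq h (hc c₀) h₀)

end

end Pool.Agent.W2helper36.WM
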